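import Pool.Agent.D0H73.NCO.Main
import Pool.Agent.R425.MK.Lim

/-!
# The exceptional sets have Hausdorff dimension zero
-/

set_option autoImplicit false

namespace Pool.Agent.D0H73.NCO

open Real Set

/-- the index set -/
abbrev Idx (K : ℕ) : Type := {p : ℕ × ℕ // p.2 ≤ K * (p.1 + 1)}

theorem idx_count (K : ℕ) : ∀ ε : ℝ, 0 < ε → ∃ C : ℝ, ∀ B : ℝ, 1 ≤ B →
    {i : Idx K | (i.1.1 : ℝ) + 1 ≤ B}.Finite ∧
      (({i : Idx K | (i.1.1 : ℝ) + 1 ≤ B}.ncard : ℕ) : ℝ) ≤ C * B ^ (2 + ε) := by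
  intro ε hε
  refine ⟨(K : ℝ) + 1, fun B hB => ?_⟩
  have hB0 : 0 < B := by linarith
  set N : ℕ := ⌊B⌋₊ with hN
  have hNB : (N : ℝ) ≤ B := Nat.floor_le hB0.le
  set T : Finset (ℕ × ℕ) := Finset.range N ×ˢ Finset.range (K * N + 1) with hT
  have hmaps : Set.MapsTo Subtype.val {i : Idx K | (i.1.1 : ℝ) + 1 ≤ B} (T : Set (ℕ × ℕ)) := by
    rintro ⟨p, hp⟩ hi
    simp only [Set.mem_ofPred_eq] at hi
    have h1 : p.1 + 1 ≤ N := by
      rw [hN, Nat.le_floor_iff hB0.le]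
      push_cast
      exact hi
    rw [Finset.mem_coe, hT, Finset.mem_product, Finset.mem_range, Finset.mem_range]
    change p.1 < N ∧ p.2 < K * N + 1
    have h2 : K * (p.1 + 1) ≤ K * N := Nat.mul_le_mul_left K h1
    exact ⟨by omega, by omega⟩
  have hinj : Set.InjOn Subtype.val {i : Idx K | (i.1.1 : ℝ) + 1 ≤ B} :=
    Subtype.val_injective.injOn
  refine ⟨Set.Finite.of_injOn hmaps hinj (Finset.finite_toSet T), ?_⟩
  have h1 := Set.ncard_le_ncard_of_injOn _ hmaps hinj (Finset.finite_toSet T)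
  rw [Set.ncard_coe_finset, hT, Finset.card_product, Finset.card_range, Finset.card_range] at h1
  have h2 : ((({i : Idx K | (i.1.1 : ℝ) + 1 ≤ B}.ncard : ℕ)) : ℝ) ≤ (N : ℝ) * ((K : ℝ) * N + 1) := by
    exact_mod_cast h1
  have hK0 : (0 : ℝ) ≤ K := Nat.cast_nonneg K
  have hN0 : (0 : ℝ) ≤ N := Nat.cast_nonneg N
  have h3 : (N : ℝ) * ((K : ℝ) * N + 1) ≤ B * ((K : ℝ) * B + B) := by
    apply mul_le_mul hNB _ (by positivity) hB0.le
    have := mul_le_mul_of_nonneg_left hNB hK0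
    linarith
  have h4 : B ^ (2 : ℝ) ≤ B ^ (2 + ε) := rpow_le_rpow_of_exponent_le hB (by linarith)
  rw [rpow_two] at h4
  calc ((({i : Idx K | (i.1.1 : ℝ) + 1 ≤ B}.ncard : ℕ)) : ℝ) ≤ B * ((K : ℝ) * B + B) := h2.trans h3
    _ = (K + 1) * B ^ 2 := by ring
    _ ≤ (K + 1) * B ^ (2 + ε) := mul_le_mul_of_nonneg_left h4 (by positivity)

/-- a set of parameters with infinitely many good approximations of every polynomial quality -/
theorem dim_poly {F : Set ℝ} (h : ∀ κ : ℕ, 1 ≤ κ → ∃ (K : ℕ) (A : ℝ) (y : ℕ × ℕ → ℝ), 0 < A ∧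
    ∀ ξ ∈ F, {p : ℕ × ℕ | p.2 ≤ K * (p.1 + 1) ∧ |y p - ξ| * ((p.1 : ℝ) + 1) ^ κ ≤ A}.Infinite) :
    dimH F = 0 := by
  have h1 : ∀ κ : ℕ, 1 ≤ κ → dimH F ≤ ENNReal.ofReal (2 / κ) := by
    intro κ hκ
    obtain ⟨K, A, y, hA, hy⟩ := h κ hκ
    have h2 := Pool.Agent.R425.MK.dimH_balls (X := ℝ) (fun i : Idx K => y i.1)
      (fun i : Idx K => (i.1.1 : ℝ) + 1) (fun i => by
        have : (0 : ℝ) ≤ i.1.1 := Nat.cast_nonneg _
        linarith) (s := 2) (τ := κ) (by norm_num)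
      (by exact_mod_cast hκ) hA (idx_count K)
    refine (dimH_mono ?_).trans h2
    intro ξ hξ
    simp only [Set.mem_ofPred_eq]
    intro hfin
    apply hy ξ hξ
    refine (hfin.image Subtype.val).subset ?_
    rintro p ⟨h3, h4⟩
    refine ⟨⟨p, h3⟩, ?_, rfl⟩
    simp only [Set.mem_ofPred_eq]
    have hq0 : (0 : ℝ) < ((p.1 : ℝ) + 1) ^ κ := by positivity
    rw [rpow_neg (by positivity), rpow_natCast, Real.dist_eq, ← div_eq_mul_inv, le_div_iff₀ hq0]
    exact h4
  refine le_antisymm ?_ bot_le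
  apply ENNReal.le_of_forall_pos_le_add
  intro ε hε _
  rw [zero_add]
  obtain ⟨κ, hκ⟩ := exists_nat_ge (2 / (ε : ℝ))
  refine (h1 (κ + 1) (by omega)).trans ?_
  rw [← ENNReal.ofReal_coe_nnreal]
  apply ENNReal.ofReal_le_ofReal
  have hε' : (0 : ℝ) < ε := by exact_mod_cast hε
  rw [div_le_iff₀ hε'] at hκ
  push_cast
  rw [div_le_iff₀ (by positivity)]
  nlinarith

theorem exp_gap {u v B : ℝ} (hv : exp v ≤ B) (h : |u - v| ≤ 1) : |exp u - exp v| ≤ 2 * B * |u - v| := by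
  have h1 := abs_exp_sub_one_le h
  have e : exp u - exp v = exp v * (exp (u - v) - 1) := by
    rw [mul_sub, ← exp_add]
    congr 2
    · ring
    · ring
  rw [e, abs_mul, abs_of_pos (exp_pos v)]
  have h0 := exp_pos v
  calc exp v * |exp (u - v) - 1| ≤ B * (2 * |u - v|) :=
        mul_le_mul hv h1 (abs_nonneg _) (h0.le.trans hv)
    _ = _ := by ring

theorem inf_of_not_good {a b c : ℝ} (h : ¬ Good a b c) (κ : ℕ) :
    {p : ℕ × ℕ | |log c + p.1 * log a - p.2 * log b| * ((p.1 : ℝ) + 1) ^ κ < 1}.Infinite := by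
  by_contra h1
  exact h ⟨κ, Set.not_infinite.1 h1⟩

/-- the bad dilations -/
theorem dim_c {a b : ℝ} (ha : 1 < a) (hb : 1 < b) : dimH {c : ℝ | 0 < c ∧ ¬ Good a b c} = 0 := by
  have hA : 0 < log a := log_pos ha
  have hB : 0 < log b := log_pos hb
  have h : ∀ k : ℕ, dimH {c : ℝ | (0 < c ∧ c ≤ k) ∧ ¬ Good a b c} = 0 := by
    intro k
    apply dim_poly
    intro κ hκ
    obtain ⟨K, hK⟩ := exists_nat_ge ((|log ((k : ℝ) + 1)| + 1 + log a) / log b)
    refine ⟨K, 2 * ((k : ℝ) + 1), fun p => exp (p.2 * log b - p.1 * log a), by positivity, ?_⟩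
    rintro c ⟨⟨hc0, hck⟩, hg⟩
    refine (inf_of_not_good hg κ).mono ?_
    intro p hp
    simp only [mem_ofPred_eq] at hp ⊢
    have hn0 : (0 : ℝ) ≤ p.1 := Nat.cast_nonneg _
    have hpow : (1 : ℝ) ≤ ((p.1 : ℝ) + 1) ^ κ := one_le_pow₀ (by linarith)
    have h1 : |log c + p.1 * log a - p.2 * log b| < 1 := by
      nlinarith [abs_nonneg (log c + p.1 * log a - p.2 * log b)]
    constructor
    · have h2 : log c ≤ |log ((k : ℝ) + 1)| :=
        (log_le_log hc0 (by linarith)).trans (le_abs_self _)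
      have h3 := (abs_lt.1 h1).1
      rw [div_le_iff₀ hB] at hK
      have h4 : (p.2 : ℝ) * log b ≤ (K : ℝ) * (p.1 + 1) * log b := by
        have h5 := abs_nonneg (log ((k : ℝ) + 1))
        have h6 : (|log ((k : ℝ) + 1)| + 1 + log a) * (p.1 + 1) ≤ K * log b * (p.1 + 1) :=
          mul_le_mul_of_nonneg_right hK (by linarith)
        nlinarith [mul_nonneg h5 hn0]
      have h5 : (p.2 : ℝ) ≤ (K : ℝ) * (p.1 + 1) := le_of_mul_le_mul_right h4 hB
      exact_mod_cast h5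
    · have e : exp (log c) = c := exp_log hc0
      have h2 := exp_gap (u := p.2 * log b - p.1 * log a) (v := log c) (B := (k : ℝ) + 1)
        (by rw [e]; linarith) (by
          have : (p.2 : ℝ) * log b - p.1 * log a - log c =
            -(log c + p.1 * log a - p.2 * log b) := by ring
          rw [this, abs_neg]
          exact h1.le)
      rw [e] at h2
      have h3 : |(p.2 : ℝ) * log b - p.1 * log a - log c| =
          |log c + p.1 * log a - p.2 * log b| := by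
        rw [← abs_neg]
        congr 1
        ring
      rw [h3] at h2
      calc |exp (p.2 * log b - p.1 * log a) - c| * ((p.1 : ℝ) + 1) ^ κ
          ≤ (2 * ((k : ℝ) + 1) * |log c + p.1 * log a - p.2 * log b|) * ((p.1 : ℝ) + 1) ^ κ :=
            mul_le_mul_of_nonneg_right h2 (by positivity)
        _ = 2 * ((k : ℝ) + 1) * (|log c + p.1 * log a - p.2 * log b| * ((p.1 : ℝ) + 1) ^ κ) := by
            ring
        _ ≤ 2 * ((k : ℝ) + 1) * 1 := mul_le_mul_of_nonneg_left hp.le (by positivity)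
        _ = _ := mul_one _
  have e : {c : ℝ | 0 < c ∧ ¬ Good a b c} = ⋃ k : ℕ, {c : ℝ | (0 < c ∧ c ≤ k) ∧ ¬ Good a b c} := by
    ext c
    simp only [mem_ofPred_eq, mem_iUnion]
    constructor
    · rintro ⟨h1, h2⟩
      obtain ⟨k, hk⟩ := exists_nat_ge c
      exact ⟨k, ⟨h1, hk⟩, h2⟩
    · rintro ⟨k, ⟨h1, -⟩, h2⟩
      exact ⟨h1, h2⟩
  rw [e, dimH_iUnion]
  simp only [h]
  simp

/-- the bad bases -/
theorem dim_a {b c : ℝ} (hb : 1 < b) (hc : 0 < c) : dimH {a : ℝ | 1 < a ∧ ¬ Good a b c} = 0 := by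
  have hB : 0 < log b := log_pos hb
  have h : ∀ k : ℕ, dimH {a : ℝ | (1 < a ∧ a ≤ k) ∧ ¬ Good a b c} = 0 := by
    intro k
    apply dim_poly
    intro κ hκ
    obtain ⟨K, hK⟩ := exists_nat_ge ((|log c| + 1 + log ((k : ℝ) + 1)) / log b)
    refine ⟨K, 2 * ((k : ℝ) + 1), fun p => exp ((p.2 * log b - log c) / p.1), by positivity, ?_⟩
    rintro a ⟨⟨ha1, hak⟩, hg⟩
    have hA : 0 < log a := log_pos ha1
    have hlk : log a ≤ log ((k : ℝ) + 1) := log_le_log (by linarith) (by linarith)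
    have hinf := inf_of_not_good hg κ
    have hz : {p : ℕ × ℕ | |log c + p.1 * log a - p.2 * log b| * ((p.1 : ℝ) + 1) ^ κ < 1 ∧
        p.1 = 0}.Finite := by
      refine (Set.Finite.image (fun m : ℕ => ((0 : ℕ), m))
        (Set.finite_Iic ⌊(|log c| + 1) / log b⌋₊)).subset ?_
      rintro ⟨n, m⟩ ⟨h1, h2⟩
      simp only at h1 h2
      subst h2
      refine ⟨m, ?_, rfl⟩
      rw [mem_Iic]
      apply Nat.le_floor
      simp only [Nat.cast_zero, zero_mul, add_zero, zero_add, one_pow, mul_one] at h1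
      rw [le_div_iff₀ hB]
      have := (abs_lt.1 h1).1
      have := le_abs_self (log c)
      linarith
    refine (hinf.sdiff hz).mono ?_
    rintro p ⟨hp, hp'⟩
    simp only [mem_ofPred_eq] at hp hp' ⊢
    have hpn : p.1 ≠ 0 := fun h0 => hp' ⟨hp, h0⟩
    have hn1 : (1 : ℝ) ≤ p.1 := by exact_mod_cast Nat.one_le_iff_ne_zero.2 hpn
    have hn0 : (0 : ℝ) < p.1 := by linarith
    have hpow : (1 : ℝ) ≤ ((p.1 : ℝ) + 1) ^ κ := one_le_pow₀ (by linarith)
    have h1 : |log c + p.1 * log a - p.2 * log b| < 1 := by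
      nlinarith [abs_nonneg (log c + p.1 * log a - p.2 * log b)]
    constructor
    · have h2 : log c ≤ |log c| := le_abs_self _
      have h3 := (abs_lt.1 h1).1
      rw [div_le_iff₀ hB] at hK
      have h4 : (p.2 : ℝ) * log b ≤ (K : ℝ) * (p.1 + 1) * log b := by
        have h5 := abs_nonneg (log c)
        have h6 : (|log c| + 1 + log ((k : ℝ) + 1)) * (p.1 + 1) ≤ K * log b * (p.1 + 1) :=
          mul_le_mul_of_nonneg_right hK (by linarith)
        have h7 : (p.1 : ℝ) * log a ≤ p.1 * log ((k : ℝ) + 1) :=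
          mul_le_mul_of_nonneg_left hlk hn0.le
        nlinarith [mul_nonneg h5 hn0.le]
      have h5 : (p.2 : ℝ) ≤ (K : ℝ) * (p.1 + 1) := le_of_mul_le_mul_right h4 hB
      exact_mod_cast h5
    · have e : exp (log a) = a := exp_log (by linarith)
      have e2 : (p.2 * log b - log c) / p.1 - log a =
          -(log c + p.1 * log a - p.2 * log b) / p.1 := by
        field_simp
        ring
      have h3 : |(p.2 * log b - log c) / p.1 - log a| ≤ |log c + p.1 * log a - p.2 * log b| := by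
        rw [e2, abs_div, abs_neg, abs_of_pos hn0]
        exact div_le_self (abs_nonneg _) hn1
      have h2 := exp_gap (u := (p.2 * log b - log c) / p.1) (v := log a) (B := (k : ℝ) + 1)
        (by rw [e]; linarith) (h3.trans h1.le)
      rw [e] at h2
      have h4 : 2 * ((k : ℝ) + 1) * |(p.2 * log b - log c) / p.1 - log a| ≤
          2 * ((k : ℝ) + 1) * |log c + p.1 * log a - p.2 * log b| :=
        mul_le_mul_of_nonneg_left h3 (by positivity)
      calc |exp ((p.2 * log b - log c) / p.1) - a| * ((p.1 : ℝ) + 1) ^ κ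
          ≤ (2 * ((k : ℝ) + 1) * |log c + p.1 * log a - p.2 * log b|) * ((p.1 : ℝ) + 1) ^ κ :=
            mul_le_mul_of_nonneg_right (h2.trans h4) (by positivity)
        _ = 2 * ((k : ℝ) + 1) * (|log c + p.1 * log a - p.2 * log b| * ((p.1 : ℝ) + 1) ^ κ) := by
            ring
        _ ≤ 2 * ((k : ℝ) + 1) * 1 := mul_le_mul_of_nonneg_left hp.le (by positivity)
        _ = _ := mul_one _
  have e : {a : ℝ | 1 < a ∧ ¬ Good a b c} = ⋃ k : ℕ, {a : ℝ | (1 < a ∧ a ≤ k) ∧ ¬ Good a b c} := by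
    ext a
    simp only [mem_ofPred_eq, mem_iUnion]
    constructor
    · rintro ⟨h1, h2⟩
      obtain ⟨k, hk⟩ := exists_nat_ge a
      exact ⟨k, ⟨h1, hk⟩, h2⟩
    · rintro ⟨k, ⟨h1, -⟩, h2⟩
      exact ⟨h1, h2⟩
  rw [e, dimH_iUnion]
  simp only [h]
  simp

/-- the bases with rational `log a / log b` -/
theorem dim_rat {b : ℝ} (hb : 1 < b) : dimH {a : ℝ | 1 < a ∧ ¬ Irrational (log a / log b)} = 0 := by
  have hB : 0 < log b := log_pos hb
  apply Set.Countable.dimH_zero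
  refine (Set.countable_range fun q : ℚ => exp (q * log b)).mono ?_
  rintro a ⟨h1, h2⟩
  rw [Irrational, not_not] at h2
  obtain ⟨q, hq⟩ := h2
  refine ⟨q, ?_⟩
  simp only
  rw [hq, div_mul_cancel₀ _ hB.ne', exp_log (by linarith)]

end Pool.Agent.D0H73.NCO
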