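import Pool.Agent.D0H73.NCO.Reg

/-!
# The third and the fourth region
-/

set_option autoImplicit false

namespace Pool.Agent.D0H73.NCO

open Real Set
open Pool.Agent.H491R3.PE

variable {a b c x : ℝ}

theorem R3_eq (hc : 0 < c) : R3 a b c x = Prod.swap '' R2 b a (1 / c) (x / c) := by
  have e1 : ∀ n : ℕ, a ^ n ≤ x / c ↔ c * a ^ n ≤ x := by
    intro n
    rw [le_div_iff₀ hc, mul_comm]
  have e2 : ∀ m : ℕ, x / c < 1 / c * b ^ m ↔ x < b ^ m := by
    intro m
    rw [one_div, inv_mul_eq_div, div_lt_div_iff_of_pos_right hc]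
  have e3 : ∀ n m : ℕ, 1 / c * b ^ m - a ^ n ≤ x / c ↔ b ^ m - c * a ^ n ≤ x := by
    intro n m
    rw [le_div_iff₀ hc]
    have : (1 / c * b ^ m - a ^ n) * c = b ^ m - c * a ^ n := by
      field_simp
    rw [this]
  ext p
  constructor
  · rintro ⟨h1, h2, h3⟩
    exact ⟨(p.2, p.1), ⟨(e2 _).2 h2, (e1 _).2 h1, (e3 _ _).2 h3⟩, rfl⟩
  · rintro ⟨q, ⟨h1, h2, h3⟩, rfl⟩
    exact ⟨(e1 _).1 h2, (e2 _).1 h1, (e3 _ _).1 h3⟩

theorem R3_count (ha : 1 < a) (hb : 1 < b) (hc : 0 < c) : ∃ C : ℝ, 0 ≤ C ∧ ∀ x : ℝ, 1 ≤ x → c ≤ x →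
    (R3 a b c x).Finite ∧ |(((R3 a b c x).ncard : ℕ) : ℝ) -
      min (log x) (log (1 / (1 - Int.fract (log x / log b)))) / log a| ≤ C := by
  have hA : 0 < log a := log_pos ha
  obtain ⟨C, hC0, hC⟩ := R2_count (c := 1 / c) hb ha (by positivity)
  refine ⟨C + |log c| / log a, by positivity, fun x hx hxc => ?_⟩
  have hx0 : 0 < x := by linarith
  obtain ⟨h1, h2⟩ := hC (x / c) (by rw [le_div_iff₀ hc]; linarith)
    (by rw [div_le_div_iff_of_pos_right hc]; linarith)
  rw [R3_eq hc]
  refine ⟨h1.image _, ?_⟩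
  rw [Set.ncard_image_of_injective _ Prod.swap_injective]
  have e1 : x / c / (1 / c) = x := by field_simp
  rw [e1] at h2
  set t := log (1 / (1 - Int.fract (log x / log b))) with ht
  have h3 : |log (x / c) - log x| ≤ |log c| := by
    rw [log_div hx0.ne' hc.ne', sub_sub_cancel_left, abs_neg]
  have h4 : |min (log (x / c)) t / log a - min (log x) t / log a| ≤ |log c| / log a := by
    rw [← sub_div, abs_div, abs_of_pos hA]
    exact div_le_div_of_nonneg_right (min_cmp' h3) hA.le
  have h5 := abs_sub_le (((R2 b a (1 / c) (x / c)).ncard : ℕ) : ℝ) (min (log (x / c)) t / log a)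
    (min (log x) t / log a)
  linarith

/-- pairs with both powers larger than `x`, not too large -/
theorem near (ha : 1 < a) (hb : 1 < b) (hc : 0 < c) (hx : 0 < x) {n m : ℕ}
    (h1 : 2 * x < c * a ^ n) (h2 : |c * a ^ n - b ^ m| ≤ x) :
    |log c + n * log a - m * log b| ≤ 2 * x / (c * a ^ n) ∧ 2 * x / (c * a ^ n) < 1 := by
  have ha0 : 0 < a := by linarith
  have hb0 : 0 < b := by linarith
  set y := c * a ^ n with hy
  have hy0 : 0 < y := by positivity
  set z := b ^ m with hz
  have hz0 : 0 < z := by positivity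
  have e1 : log c + n * log a = log y := by rw [hy, log_mul hc.ne' (by positivity), log_pow]
  have e2 : (m : ℝ) * log b = log z := by rw [hz, log_pow]
  rw [e1, e2]
  rw [abs_le] at h2
  have h3 : 2 * x / y < 1 := by
    rw [div_lt_one hy0]
    linarith
  refine ⟨?_, h3⟩
  have h4 : log z - log y ≤ x / y := by
    rw [← log_div hz0.ne' hy0.ne']
    have h5 := log_le_sub_one_of_pos (div_pos hz0 hy0)
    have h6 : z / y - 1 ≤ x / y := by
      rw [div_sub_one hy0.ne']
      exact div_le_div_of_nonneg_right (by linarith) hy0.le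
    linarith
  have h5 : log y - log z ≤ 2 * x / y := by
    rw [← log_div hy0.ne' hz0.ne']
    have h6 := log_le_sub_one_of_pos (div_pos hy0 hz0)
    have h7 : y / z - 1 ≤ 2 * x / y := by
      rw [div_sub_one hz0.ne', div_le_div_iff₀ hz0 hy0]
      nlinarith
    linarith
  have h6 : x / y ≤ 2 * x / y := div_le_div_of_nonneg_right (by linarith) hy0.le
  rw [abs_le]
  constructor <;> linarith

/-- the pairs of the fourth region with `c a ^ n ≤ x y`, `y ≥ 2` -/
theorem R4_low (ha : 1 < a) (hb : 1 < b) (hc : 0 < c) : ∃ C : ℝ, 0 ≤ C ∧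
    ∀ x y : ℝ, 1 ≤ x → c ≤ x → 2 ≤ y → {p | p ∈ R4 a b c x ∧ c * a ^ p.1 ≤ x * y}.Finite ∧
      (({p | p ∈ R4 a b c x ∧ c * a ^ p.1 ≤ x * y}.ncard : ℕ) : ℝ) ≤ C * log y := by
  have hA : 0 < log a := log_pos ha
  have hB : 0 < log b := log_pos hb
  have hl2 : 0 < log 2 := log_pos (by norm_num)
  refine ⟨(1 / log a + 1 / log 2) * (3 / log b + 1), by positivity, fun x y hx hxc hy => ?_⟩
  have hx0 : 0 < x := by linarith
  have hy0 : 0 < y := by linarith
  have hly : log 2 ≤ log y := log_le_log (by norm_num) hy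
  have h := set_count (S := {p | p ∈ R4 a b c x ∧ c * a ^ p.1 ≤ x * y})
    (u := log (x / c) / log a) (L := log y / log a) (L2 := 3 / log b)
    (f := fun n => (log c + n * log a - 1) / log b) (div_nonneg (by linarith) hA.le)
    (by positivity) ?_
  · refine ⟨h.1, h.2.trans ?_⟩
    have h1 : log y / log a + 1 ≤ (1 / log a + 1 / log 2) * log y := by
      have h2 : 1 ≤ 1 / log 2 * log y := by
        rw [div_mul_eq_mul_div, le_div_iff₀ hl2]
        linarith
      have h3 : (1 / log a + 1 / log 2) * log y = log y / log a + 1 / log 2 * log y := by ring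
      linarith
    calc (log y / log a + 1) * (3 / log b + 1)
        ≤ ((1 / log a + 1 / log 2) * log y) * (3 / log b + 1) :=
          mul_le_mul_of_nonneg_right h1 (by positivity)
      _ = _ := by ring
  · rintro p ⟨⟨h1, h2, h3⟩, h4⟩
    have h5 := (lt_ca ha hc hx0 p.1).1 h1
    have h6 := (ca_le ha hc (by positivity) p.1).1 h4
    refine ⟨h5.le, ?_, ?_⟩
    · have e1 : log (x * y / c) = log (x / c) + log y := by
        rw [← log_mul (by positivity) hy0.ne']
        congr 1
        ring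
      rw [e1, add_div] at h6
      exact h6
    -- the second coordinate
    have hca : 0 < c * a ^ p.1 := by linarith
    have hbm : 0 < b ^ p.2 := by linarith
    have e2 : log (c * a ^ p.1) = log c + p.1 * log a := by
      rw [log_mul hc.ne' (by positivity), log_pow]
    have e3 : log (b ^ p.2) = p.2 * log b := log_pow _ _
    rw [abs_le] at h3
    have h7 : b ^ p.2 ≤ 2 * (c * a ^ p.1) := by linarith
    have h8 : c * a ^ p.1 ≤ 2 * b ^ p.2 := by linarith
    have h9 := log_le_log hbm h7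
    have h10 := log_le_log hca h8
    rw [log_mul (by norm_num) hca.ne', e2, e3] at h9
    rw [log_mul (by norm_num) hbm.ne', e2, e3] at h10
    have h11 : log 2 < 1 := by
      have := log_two_lt_d9
      linarith
    constructor
    · rw [div_le_iff₀ hB]
      linarith
    · rw [← add_div, le_div_iff₀ hB]
      linarith

/-- `log c + n log a - m log b` is not too small -/
def Good (a b c : ℝ) : Prop :=
  ∃ κ : ℕ, {p : ℕ × ℕ | |log c + p.1 * log a - p.2 * log b| * ((p.1 : ℝ) + 1) ^ κ < 1}.Finite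

theorem log_add_le (K : ℝ) (hK : 0 < K) : ∃ C : ℝ, 0 ≤ C ∧ ∀ t : ℝ, 0 ≤ t → K * log (t + 1) ≤ t / 2 + C := by
  refine ⟨K * |log (2 * K)| + 1 , by positivity, fun t ht => ?_⟩
  have h1 := log_le_sub_one_of_pos (x := (t + 1) / (2 * K)) (by positivity)
  rw [log_div (by positivity) (by positivity)] at h1
  have h2 := le_abs_self (log (2 * K))
  have h3 : K * log (t + 1) ≤ K * (log (2 * K) + ((t + 1) / (2 * K) - 1)) :=
    mul_le_mul_of_nonneg_left (by linarith) hK.le
  have h4 : K * (log (2 * K) + ((t + 1) / (2 * K) - 1)) = K * log (2 * K) + (t + 1) / 2 - K := by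
    field_simp
    ring
  have h5 : K * log (2 * K) ≤ K * |log (2 * K)| := mul_le_mul_of_nonneg_left h2 hK.le
  linarith

/-- the fourth region for a good dilation -/
theorem R4_good (ha : 1 < a) (hb : 1 < b) (hc : 0 < c) (hg : Good a b c) :
    ∃ C x₀ : ℝ, 0 ≤ C ∧ ∀ x : ℝ, x₀ ≤ x → (R4 a b c x).Finite ∧
      (((R4 a b c x).ncard : ℕ) : ℝ) ≤ C * log (log x) := by
  have hA : 0 < log a := log_pos ha
  have hl2 : 0 < log 2 := log_pos (by norm_num)
  have ha0 : 0 < a := by linarith
  obtain ⟨κ, hκ⟩ := hg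
  obtain ⟨n₀, hn₀⟩ := hκ.image Prod.fst |>.bddAbove
  obtain ⟨C1, hC1, h1⟩ := R4_low ha hb hc
  obtain ⟨C2, hC2, h2⟩ := log_add_le ((κ + 1) / log a) (by positivity)
  -- for large `x` the element `p` of the fourth region has `c a ^ n ≤ x (log x) ^ (2 (κ + 1))`
  set C3 : ℝ := 2 * (log 2 / log a + |log c| / log a + C2) + 1 with hC3
  have hC30 : 0 ≤ C3 := by positivity
  set C4 : ℝ := 2 / log a + C3 + 1 with hC4
  have hC40 : 0 < C4 := by positivity
  refine ⟨C1 * (2 * (κ + 2)), max (max 4 c) (max (c * a ^ n₀) (exp (max (C4 + 2) (exp 1)))),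
    by positivity, fun x hx => ?_⟩
  have hx4 : 4 ≤ x := ((le_max_left _ _).trans (le_max_left _ _)).trans hx
  have hxc : c ≤ x := ((le_max_right _ _).trans (le_max_left _ _)).trans hx
  have hxn : c * a ^ n₀ ≤ x := ((le_max_left _ _).trans (le_max_right _ _)).trans hx
  have hxe : exp (max (C4 + 2) (exp 1)) ≤ x :=
    ((le_max_right _ _).trans (le_max_right _ _)).trans hx
  have hx0 : 0 < x := by linarith
  rw [← le_log_iff_exp_le hx0] at hxe
  have hl4 : C4 + 2 ≤ log x := (le_max_left _ _).trans hxe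
  have hle : exp 1 ≤ log x := (le_max_right _ _).trans hxe
  have hlx0 : 0 < log x := by linarith
  have hll : 1 ≤ log (log x) := by
    rw [le_log_iff_exp_le hlx0]
    exact hle
  set y : ℝ := (log x) ^ (2 * (κ + 2)) with hy
  have hlx2 : 2 ≤ log x := by linarith
  have hy2 : 2 ≤ y := by
    calc (2 : ℝ) ≤ log x := hlx2
      _ ≤ y := by
        rw [hy]
        exact le_self_pow₀ (by linarith) (by omega)
  have hly : log y = 2 * (κ + 2) * log (log x) := by
    rw [hy, log_pow]
    push_cast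
    ring
  obtain ⟨h3, h4⟩ := h1 x y (by linarith) hxc hy2
  have hsub : R4 a b c x ⊆ {p | p ∈ R4 a b c x ∧ c * a ^ p.1 ≤ x * y} := by
    intro p hp
    refine ⟨hp, ?_⟩
    by_contra hcon
    rw [not_le] at hcon
    obtain ⟨h5, h6, h7⟩ := id hp
    have h8 : 2 * x < c * a ^ p.1 := by nlinarith
    obtain ⟨h9, h10⟩ := near ha hb hc hx0 h8 h7
    -- `p.1 > n₀`
    have h11 : n₀ < p.1 := by
      by_contra h12
      rw [not_lt] at h12
      have : a ^ p.1 ≤ a ^ n₀ := pow_le_pow_right₀ ha.le h12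
      nlinarith
    have h12 : 1 ≤ |log c + p.1 * log a - p.2 * log b| * ((p.1 : ℝ) + 1) ^ κ := by
      by_contra h13
      rw [not_le] at h13
      have := hn₀ (Set.mem_image_of_mem Prod.fst (show p ∈ _ from h13))
      omega
    have hn0 : (0 : ℝ) ≤ p.1 := Nat.cast_nonneg _
    have hca : 0 < c * a ^ p.1 := by linarith
    have h13 : c * a ^ p.1 ≤ 2 * x * ((p.1 : ℝ) + 1) ^ κ := by
      have h14 : 1 ≤ 2 * x / (c * a ^ p.1) * ((p.1 : ℝ) + 1) ^ κ :=
        h12.trans (mul_le_mul_of_nonneg_right h9 (by positivity))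
      rw [div_mul_eq_mul_div, le_div_iff₀ hca] at h14
      linarith
    -- an upper bound for `p.1`
    have h14 : (p.1 : ℝ) + 1 ≤ C4 * log x := by
      have h15 := log_le_log hca h13
      rw [log_mul hc.ne' (by positivity), log_pow, log_mul (by positivity) (by positivity),
        log_mul (by norm_num) hx0.ne', log_pow] at h15
      have h16 : (p.1 : ℝ) ≤ (log 2 + |log c| + log x) / log a + κ / log a * log ((p.1 : ℝ) + 1) := by
        rw [div_mul_eq_mul_div, ← add_div, le_div_iff₀ hA]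
        have := neg_abs_le (log c)
        linarith
      have h17 := h2 p.1 hn0
      have h18 : κ / log a * log ((p.1 : ℝ) + 1) ≤ (κ + 1) / log a * log ((p.1 : ℝ) + 1) := by
        apply mul_le_mul_of_nonneg_right _ (log_nonneg (by linarith))
        exact div_le_div_of_nonneg_right (by linarith) hA.le
      have h19 : (p.1 : ℝ) + 1 ≤ 2 / log a * log x + C3 := by
        rw [add_div, add_div] at h16
        have e1 : 2 / log a * log x = 2 * (log x / log a) := by ring
        rw [hC3, e1]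
        linarith
      have h20 : C3 ≤ C3 * log x := le_mul_of_one_le_right hC30 (by linarith)
      have h21 : C4 * log x = 2 / log a * log x + C3 * log x + log x := by
        rw [hC4]
        ring
      linarith
    have h15 : ((p.1 : ℝ) + 1) ^ κ ≤ (log x) ^ (2 * κ) := by
      calc ((p.1 : ℝ) + 1) ^ κ ≤ ((log x) ^ 2) ^ κ := by
            apply pow_le_pow_left₀ (by linarith)
            nlinarith
        _ = (log x) ^ (2 * κ) := by rw [← pow_mul]
    have h16 : 2 * ((p.1 : ℝ) + 1) ^ κ < y := by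
      have h17 : y = (log x) ^ (2 * κ) * (log x) ^ 4 := by
        rw [hy, ← pow_add]
        congr 1
      have h18 : (2 : ℝ) < (log x) ^ 4 := by
        calc (2 : ℝ) < 2 ^ 4 := by norm_num
          _ ≤ (log x) ^ 4 := pow_le_pow_left₀ (by norm_num) hlx2 4
      have h19 : 0 < (log x) ^ (2 * κ) := by positivity
      rw [h17]
      nlinarith
    nlinarith
  refine ⟨h3.subset hsub, ?_⟩
  have h5 : (((R4 a b c x).ncard : ℕ) : ℝ) ≤
      (({p | p ∈ R4 a b c x ∧ c * a ^ p.1 ≤ x * y}.ncard : ℕ) : ℝ) := by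
    exact_mod_cast Set.ncard_le_ncard hsub h3
  calc (((R4 a b c x).ncard : ℕ) : ℝ) ≤ C1 * log y := h5.trans h4
    _ = _ := by rw [hly]; ring

end Pool.Agent.D0H73.NCO
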