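import Pool.Agent.D0H73.NCO.Lim
import Pool.Agent.Results.MP_678d3c_nt.BaseFive

/-!
# The law of the error term along geometric progressions, and no second term
-/

set_option autoImplicit false

namespace Pool.Agent.D0H73.NCO

open Real Set Filter

variable {a b c : ℝ}

theorem law {φ γ e ρ : ℝ} (hφ : Irrational φ) (hρ : 0 < ρ) {E : ℕ → ℝ}
    (h : ∀ δ : ℝ, 0 < δ → ∃ k₀ : ℕ, ∀ k : ℕ, k₀ ≤ k → δ ≤ 1 - Int.fract (k * φ + γ) →
      |E k - e - ρ * (1 - Int.fract (k * φ + γ))| ≤ δ) (r : ℝ) (hr0 : 0 ≤ r) (hr1 : r ≤ 1) :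
    Tendsto (fun K : ℕ => (({k : ℕ | k < K ∧ E k ≤ e + ρ * r}.ncard : ℕ) : ℝ) / K) atTop
      (nhds r) := by
  classical
  -- equidistribution
  have heq : ∀ y : ℝ, 0 ≤ y → y ≤ 1 → Tendsto (fun K : ℕ => (((Finset.range K).filter
      fun k : ℕ => 1 - Int.fract (k * φ + γ) ≤ y).card : ℝ) / K) atTop (nhds y) := by
    intro y hy0 hy1
    have h1 := Pool.Agent.Results.MP_678d3c_nt.BaseFive.equidist (fun k : ℕ => k * φ + γ) φ hφ
      (fun _ => 0) (by
        have : (fun k : ℕ => ((k + 1 : ℕ) : ℝ) * φ + γ - (k * φ + γ) - φ - ((0 : ℤ) : ℝ)) =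
            fun _ => 0 := by
          funext k
          push_cast
          ring
        rw [this]
        exact tendsto_const_nhds) (1 - y) 1 (by linarith) (by linarith) le_rfl
    have e1 : (1 : ℝ) - (1 - y) = y := by ring
    rw [e1] at h1
    refine h1.congr fun K => ?_
    congr 3
    apply Finset.filter_congr
    intro k _
    constructor
    · rintro ⟨h2, -⟩
      linarith
    · intro h2
      exact ⟨by linarith, Int.fract_lt_one _⟩
  rw [Metric.tendsto_atTop]
  intro ε hε
  set δ := min 1 (ε / (4 * (1 + 1 / ρ))) with hδ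
  have hδ0 : 0 < δ := lt_min one_pos (by positivity)
  have hδ1 : δ ≤ 1 := min_le_left _ _
  have hδ2 : δ * (1 + 1 / ρ) ≤ ε / 4 := by
    have h1 : δ ≤ ε / (4 * (1 + 1 / ρ)) := min_le_right _ _
    calc δ * (1 + 1 / ρ) ≤ ε / (4 * (1 + 1 / ρ)) * (1 + 1 / ρ) :=
          mul_le_mul_of_nonneg_right h1 (by positivity)
      _ = ε / 4 := by field_simp
  have hρ1 : 0 < 1 / ρ := by positivity
  have hδ3 : δ ≤ ε / 4 := by nlinarith
  have hδ4 : δ / ρ ≤ ε / 4 := by
    have : δ / ρ = δ * (1 / ρ) := by ring
    nlinarith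
  obtain ⟨k₀, hk₀⟩ := h δ hδ0
  set y := min 1 (r + δ * (1 + 1 / ρ)) with hy
  have hy0 : 0 ≤ y := le_min (by norm_num) (by positivity)
  have hy1 : y ≤ 1 := min_le_left _ _
  set y' := max 0 (r - δ / ρ) with hy'
  have hy'0 : 0 ≤ y' := le_max_left _ _
  have hy'1 : y' ≤ 1 := max_le (by norm_num) (by
    have : 0 ≤ δ / ρ := by positivity
    linarith)
  have t1 := (Metric.tendsto_atTop.1 (heq y hy0 hy1)) (ε / 8) (by linarith)
  have t2 := (Metric.tendsto_atTop.1 (heq y' hy'0 hy'1)) (ε / 8) (by linarith)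
  have t3 := (Metric.tendsto_atTop.1 (heq δ hδ0.le hδ1)) (ε / 8) (by linarith)
  obtain ⟨M1, hM1⟩ := t1
  obtain ⟨M2, hM2⟩ := t2
  obtain ⟨M3, hM3⟩ := t3
  obtain ⟨M4, hM4⟩ := exists_nat_gt ((k₀ : ℝ) / (ε / 8))
  refine ⟨max (max M1 M2) (max M3 (M4 + 1)), fun K hK => ?_⟩
  have g1 := hM1 K (((le_max_left _ _).trans (le_max_left _ _)).trans hK)
  have g2 := hM2 K (((le_max_right _ _).trans (le_max_left _ _)).trans hK)
  have g3 := hM3 K (((le_max_left _ _).trans (le_max_right _ _)).trans hK)
  have g4 : M4 + 1 ≤ K := ((le_max_right _ _).trans (le_max_right _ _)).trans hK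
  have hK0 : (0 : ℝ) < K := by
    have : 0 < K := by omega
    exact_mod_cast this
  have g5 : (k₀ : ℝ) ≤ ε / 8 * K := by
    rw [div_lt_iff₀ (by linarith)] at hM4
    have : (M4 : ℝ) ≤ K := by exact_mod_cast (by omega : M4 ≤ K)
    nlinarith
  rw [Real.dist_eq, abs_lt] at g1 g2 g3
  set A := (Finset.range K).filter fun k : ℕ => 1 - Int.fract (k * φ + γ) ≤ y with hA
  set A' := (Finset.range K).filter fun k : ℕ => 1 - Int.fract (k * φ + γ) ≤ y' with hA'
  set D := (Finset.range K).filter fun k : ℕ => 1 - Int.fract (k * φ + γ) ≤ δ with hD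
  have a1 : (A.card : ℝ) < (y + ε / 8) * K := by
    rw [← div_lt_iff₀ hK0]
    linarith [g1.2]
  have a2 : (y' - ε / 8) * K < (A'.card : ℝ) := by
    rw [← lt_div_iff₀ hK0]
    linarith [g2.1]
  have a3 : (D.card : ℝ) < (δ + ε / 8) * K := by
    rw [← div_lt_iff₀ hK0]
    linarith [g3.2]
  set T := {k : ℕ | k < K ∧ E k ≤ e + ρ * r} with hT
  have hTe : T = ((Finset.range K).filter fun k => E k ≤ e + ρ * r : Finset ℕ) := by
    ext k
    rw [Finset.coe_filter]
    simp only [hT, mem_ofPred_eq, Finset.mem_range]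
  have hTc : T.ncard = ((Finset.range K).filter fun k => E k ≤ e + ρ * r).card := by
    rw [hTe, Set.ncard_coe_finset]
  rw [Real.dist_eq, hTc, abs_lt]
  set B := (Finset.range K).filter fun k => E k ≤ e + ρ * r with hB
  have up : (B.card : ℝ) ≤ k₀ + A.card := by
    have hsub : B ⊆ Finset.range k₀ ∪ A := by
      intro k hk
      rw [hB, Finset.mem_filter, Finset.mem_range] at hk
      rw [Finset.mem_union, Finset.mem_range]
      rcases Nat.lt_or_ge k k₀ with h1 | h1
      · exact Or.inl h1
      · right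
        rw [hA, Finset.mem_filter, Finset.mem_range]
        refine ⟨hk.1, ?_⟩
        apply le_min
        · linarith [Int.fract_nonneg ((k : ℝ) * φ + γ)]
        · rcases le_or_gt δ (1 - Int.fract (k * φ + γ)) with h2 | h2
          · have h3 := (abs_le.1 (hk₀ k h1 h2)).1
            have h4 : ρ * (1 - Int.fract (k * φ + γ)) ≤ ρ * r + δ := by linarith [hk.2]
            have h5 : 1 - Int.fract (k * φ + γ) ≤ r + δ / ρ := by
              have h6 : (1 - Int.fract (k * φ + γ)) * ρ ≤ (r + δ / ρ) * ρ := by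
                rw [add_mul, div_mul_cancel₀ _ hρ.ne']
                linarith
              exact le_of_mul_le_mul_right h6 hρ
            have h6 : δ * (1 + 1 / ρ) = δ + δ / ρ := by ring
            linarith
          · have h6 : 0 ≤ δ * (1 / ρ) := by positivity
            nlinarith
    have h1 := (Finset.card_le_card hsub).trans (Finset.card_union_le _ _)
    rw [Finset.card_range] at h1
    exact_mod_cast h1
  have low : (A'.card : ℝ) ≤ B.card + D.card + k₀ := by
    have hsub : A' ⊆ (B ∪ D) ∪ Finset.range k₀ := by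
      intro k hk
      rw [hA', Finset.mem_filter, Finset.mem_range] at hk
      rw [Finset.mem_union, Finset.mem_union, Finset.mem_range]
      rcases Nat.lt_or_ge k k₀ with h1 | h1
      · exact Or.inr h1
      · left
        rcases le_or_gt (1 - Int.fract (k * φ + γ)) δ with h2 | h2
        · right
          rw [hD, Finset.mem_filter, Finset.mem_range]
          exact ⟨hk.1, h2⟩
        · left
          rw [hB, Finset.mem_filter, Finset.mem_range]
          refine ⟨hk.1, ?_⟩
          have h3 := (abs_le.1 (hk₀ k h1 h2.le)).2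
          have h4 : 0 < y' := lt_of_lt_of_le (by linarith [Int.fract_lt_one ((k : ℝ) * φ + γ)]) hk.2
          have h5 : y' = r - δ / ρ := by
            rw [hy']
            apply max_eq_right
            by_contra h6
            rw [not_le] at h6
            rw [hy', max_eq_left h6.le] at h4
            exact lt_irrefl _ h4
          have h6 : ρ * (1 - Int.fract (k * φ + γ)) ≤ ρ * (r - δ / ρ) := by
            rw [← h5]
            exact mul_le_mul_of_nonneg_left hk.2 hρ.le
          have h7 : ρ * (r - δ / ρ) = ρ * r - δ := by field_simp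
          linarith
    have h1 := (Finset.card_le_card hsub).trans (Finset.card_union_le _ _)
    have h2 := Finset.card_union_le B D
    rw [Finset.card_range] at h1
    have h3 : A'.card ≤ B.card + D.card + k₀ := by omega
    exact_mod_cast h3
  have hyr : y ≤ r + ε / 4 := (min_le_right _ _).trans (by linarith)
  have hy'r : r - ε / 4 ≤ y' := le_trans (by linarith) (le_max_right _ _)
  constructor
  · rw [lt_sub_iff_add_lt, lt_div_iff₀ hK0]
    nlinarith
  · rw [sub_lt_iff_lt_add, div_lt_iff₀ hK0]
    nlinarith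

/-- the error term divided by `log x` is close to its explicit form -/
theorem E_close (ha : 1 < a) (hb : 1 < b) (hc : 0 < c) {N : ℝ → ℝ} {C : ℝ} (hC : 0 ≤ C)
    (hN : ∀ x : ℝ, C ≤ x → |N x - F a b c x| ≤ C * log (log x)) (δ : ℝ) (hδ : 0 < δ) :
    ∃ x₀ : ℝ, ∀ x : ℝ, x₀ ≤ x → δ ≤ 1 - Int.fract (log (x / c) / log a) →
      δ ≤ 1 - Int.fract (log x / log b) →
      |(N x - log x * log (x / c) / (log a * log b)) / log x -
        ((1 - Int.fract (log (x / c) / log a)) / log b + (1 - Int.fract (log x / log b)) / log a)| ≤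
        δ := by
  have hA : 0 < log a := log_pos ha
  have hB : 0 < log b := log_pos hb
  obtain ⟨C2, hC2, h2⟩ := F_eq ha hb hc
  set W := |log (1 / δ)| with hW
  have hW0 : 0 ≤ W := abs_nonneg _
  set D := C + C2 + (1 / log a + 1 / log b) * W with hD
  have hD0 : 0 ≤ D := by positivity
  have hlim : Tendsto (fun x : ℝ => log (log x) / log x) atTop (nhds 0) := by
    have h3 : Tendsto (fun y : ℝ => log y / y) atTop (nhds 0) := by
      have := Real.isLittleO_log_id_atTop.tendsto_div_nhds_zero
      simpa using this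
    exact h3.comp tendsto_log_atTop
  have hlim' := (hlim.const_mul D)
  rw [mul_zero] at hlim'
  have hev : ∀ᶠ x : ℝ in atTop, D * (log (log x) / log x) < δ ∧ exp 1 ≤ log x ∧ C ≤ x ∧
      exp (exp 1) ≤ x := by
    filter_upwards [hlim'.eventually (gt_mem_nhds hδ), tendsto_log_atTop.eventually_ge_atTop (exp 1),
      eventually_ge_atTop C, eventually_ge_atTop (exp (exp 1))] with x g1 g2 g3 g4
    exact ⟨g1, g2, g3, g4⟩
  obtain ⟨x₀, hx₀⟩ := eventually_atTop.1 hev
  refine ⟨x₀, fun x hx hs ht => ?_⟩
  obtain ⟨g1, g2, g3, g4⟩ := hx₀ x hx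
  have h1e : (1 : ℝ) ≤ exp 1 := one_le_exp (by norm_num)
  have hlx1 : 1 ≤ log x := by linarith
  have hl0 : 0 < log x := by linarith
  have hll : 1 ≤ log (log x) := (le_log_iff_exp_le hl0).2 g2
  have h3 := h2 x ((exp_le_exp.2 h1e).trans g4)
  have h4 := hN x g3
  set s := 1 - Int.fract (log (x / c) / log a) with hsdef
  set t := 1 - Int.fract (log x / log b) with htdef
  have hs1 : s ≤ 1 := by linarith [Int.fract_nonneg (log (x / c) / log a)]
  have ht1 : t ≤ 1 := by linarith [Int.fract_nonneg (log x / log b)]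
  have hlt : ∀ u : ℝ, δ ≤ u → u ≤ 1 → 0 ≤ lt x u ∧ lt x u * log x ≤ W := by
    intro u hu hu1
    have hu0 : 0 < u := by linarith
    refine ⟨lt_nonneg hlx1 hu0 hu1, ?_⟩
    rw [lt, div_mul_cancel₀ _ hl0.ne']
    refine (min_le_right _ _).trans (le_trans ?_ (le_abs_self _))
    apply log_le_log (by positivity)
    exact div_le_div_of_nonneg_left (by norm_num) hδ hu
  obtain ⟨i1, i2⟩ := hlt s hs hs1
  obtain ⟨i3, i4⟩ := hlt t ht ht1
  have e1 : (N x - log x * log (x / c) / (log a * log b)) / log x - (s / log b + t / log a) =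
      ((N x - F a b c x) + (F a b c x - log x * log (x / c) / (log a * log b) -
        ((s + lt x s) / log b + (t + lt x t) / log a) * log x) +
        (lt x s * log x / log b + lt x t * log x / log a)) / log x := by
    field_simp
    ring
  rw [e1, abs_div, abs_of_pos hl0, div_le_iff₀ hl0]
  have j1 : |lt x s * log x / log b + lt x t * log x / log a| ≤ (1 / log a + 1 / log b) * W := by
    rw [abs_of_nonneg (by positivity)]
    have j2 : lt x s * log x / log b ≤ W / log b := div_le_div_of_nonneg_right i2 hB.le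
    have j3 : lt x t * log x / log a ≤ W / log a := div_le_div_of_nonneg_right i4 hA.le
    have j4 : (1 / log a + 1 / log b) * W = W / log a + W / log b := by ring
    linarith
  have j5 := abs_add_le ((N x - F a b c x) + (F a b c x - log x * log (x / c) / (log a * log b) -
        ((s + lt x s) / log b + (t + lt x t) / log a) * log x))
        (lt x s * log x / log b + lt x t * log x / log a)
  have j6 := abs_add_le (N x - F a b c x) (F a b c x - log x * log (x / c) / (log a * log b) -
        ((s + lt x s) / log b + (t + lt x t) / log a) * log x)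
  have j7 : C2 ≤ C2 * log (log x) := le_mul_of_one_le_right hC2 hll
  have j8 : (1 / log a + 1 / log b) * W ≤ (1 / log a + 1 / log b) * W * log (log x) :=
    le_mul_of_one_le_right (by positivity) hll
  have j9 : D * log (log x) = C * log (log x) + C2 * log (log x) +
    (1 / log a + 1 / log b) * W * log (log x) := by
    rw [hD]
    ring
  rw [mul_div_assoc', div_lt_iff₀ hl0] at g1
  linarith

/-- **the law along `x₀ a ^ k`** -/
theorem law_a (ha : 1 < a) (hb : 1 < b) (hc : 0 < c) (hθ : Irrational (log a / log b))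
    {N : ℝ → ℝ} {C : ℝ} (hC : 0 ≤ C)
    (hN : ∀ x : ℝ, C ≤ x → |N x - F a b c x| ≤ C * log (log x)) {x₀ : ℝ} (hx₀ : 0 < x₀) (r : ℝ)
    (hr0 : 0 ≤ r) (hr1 : r ≤ 1) :
    Tendsto (fun K : ℕ => (({k : ℕ | k < K ∧
      (N (x₀ * a ^ k) - log (x₀ * a ^ k) * log (x₀ * a ^ k / c) / (log a * log b)) /
        log (x₀ * a ^ k) ≤
      (1 - Int.fract (log (x₀ / c) / log a)) / log b + 1 / log a * r}.ncard : ℕ) : ℝ) / K) atTop
      (nhds r) := by
  have hA : 0 < log a := log_pos ha
  have hB : 0 < log b := log_pos hb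
  have ha0 : 0 < a := by linarith
  have hU : ∀ k : ℕ, Int.fract (log (x₀ * a ^ k / c) / log a) = Int.fract (log (x₀ / c) / log a) := by
    intro k
    have e : log (x₀ * a ^ k / c) / log a = log (x₀ / c) / log a + k := by
      rw [mul_div_right_comm, log_mul (by positivity) (by positivity), log_pow]
      field_simp
    rw [e, Int.fract_add_natCast]
  have hV : ∀ k : ℕ, log (x₀ * a ^ k) / log b = k * (log a / log b) + log x₀ / log b := by
    intro k
    rw [log_mul hx₀.ne' (by positivity), log_pow]
    ring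
  have hs : 0 < 1 - Int.fract (log (x₀ / c) / log a) := by
    linarith [Int.fract_lt_one (log (x₀ / c) / log a)]
  apply law hθ (γ := log x₀ / log b) (by positivity : 0 < 1 / log a) _ r hr0 hr1
  intro δ hδ
  obtain ⟨X, hX⟩ := E_close ha hb hc hC hN (min δ (1 - Int.fract (log (x₀ / c) / log a)))
    (lt_min hδ hs)
  obtain ⟨k₀, hk₀⟩ := pow_unbounded_of_one_lt (X / x₀) ha
  refine ⟨k₀, fun k hk hδk => ?_⟩
  have h1 : X ≤ x₀ * a ^ k := by
    have h2 : a ^ k₀ ≤ a ^ k := pow_le_pow_right₀ ha.le hk
    rw [div_lt_iff₀ hx₀] at hk₀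
    nlinarith
  have h2 := hX _ h1 (by rw [hU]; exact min_le_right _ _)
    (by rw [hV]; exact (min_le_left _ _).trans hδk)
  rw [hU, hV] at h2
  refine le_trans (le_of_eq ?_) (h2.trans (min_le_left _ _))
  congr 1
  ring

/-- **the law along `x₀ b ^ k`** -/
theorem law_b (ha : 1 < a) (hb : 1 < b) (hc : 0 < c) (hθ : Irrational (log a / log b))
    {N : ℝ → ℝ} {C : ℝ} (hC : 0 ≤ C)
    (hN : ∀ x : ℝ, C ≤ x → |N x - F a b c x| ≤ C * log (log x)) {x₀ : ℝ} (hx₀ : 0 < x₀) (r : ℝ)
    (hr0 : 0 ≤ r) (hr1 : r ≤ 1) :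
    Tendsto (fun K : ℕ => (({k : ℕ | k < K ∧
      (N (x₀ * b ^ k) - log (x₀ * b ^ k) * log (x₀ * b ^ k / c) / (log a * log b)) /
        log (x₀ * b ^ k) ≤
      (1 - Int.fract (log x₀ / log b)) / log a + 1 / log b * r}.ncard : ℕ) : ℝ) / K) atTop
      (nhds r) := by
  have hA : 0 < log a := log_pos ha
  have hB : 0 < log b := log_pos hb
  have hb0 : 0 < b := by linarith
  have hθ' : Irrational (log b / log a) := by
    have := hθ.inv
    rwa [inv_div] at this
  have hV : ∀ k : ℕ, Int.fract (log (x₀ * b ^ k) / log b) = Int.fract (log x₀ / log b) := by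
    intro k
    have e : log (x₀ * b ^ k) / log b = log x₀ / log b + k := by
      rw [log_mul hx₀.ne' (by positivity), log_pow]
      field_simp
    rw [e, Int.fract_add_natCast]
  have hU : ∀ k : ℕ, log (x₀ * b ^ k / c) / log a = k * (log b / log a) + log (x₀ / c) / log a := by
    intro k
    rw [mul_div_right_comm, log_mul (by positivity) (by positivity), log_pow]
    ring
  have ht : 0 < 1 - Int.fract (log x₀ / log b) := by
    linarith [Int.fract_lt_one (log x₀ / log b)]
  apply law hθ' (γ := log (x₀ / c) / log a) (by positivity : 0 < 1 / log b) _ r hr0 hr1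
  intro δ hδ
  obtain ⟨X, hX⟩ := E_close ha hb hc hC hN (min δ (1 - Int.fract (log x₀ / log b)))
    (lt_min hδ ht)
  obtain ⟨k₀, hk₀⟩ := pow_unbounded_of_one_lt (X / x₀) hb
  refine ⟨k₀, fun k hk hδk => ?_⟩
  have h1 : X ≤ x₀ * b ^ k := by
    have h2 : b ^ k₀ ≤ b ^ k := pow_le_pow_right₀ hb.le hk
    rw [div_lt_iff₀ hx₀] at hk₀
    nlinarith
  have h2 := hX _ h1 (by rw [hU]; exact (min_le_left _ _).trans hδk)
    (by rw [hV]; exact min_le_right _ _)
  rw [hU, hV] at h2
  refine le_trans (le_of_eq ?_) (h2.trans (min_le_left _ _))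
  congr 1
  ring

/-- **there is no second term** -/
theorem no_second (ha : 1 < a) (hb : 1 < b) (hc : 0 < c) (κ : ℝ) :
    ¬ (fun x : ℝ => (((pairs a b c x).ncard : ℕ) : ℝ) - log x ^ 2 / (log a * log b) - κ * log x)
      =o[atTop] (fun x : ℝ => log x) := by
  intro h
  have hA : 0 < log a := log_pos ha
  have hB : 0 < log b := log_pos hb
  have ha0 : 0 < a := by linarith
  have hdef := fun ε (hε : (0 : ℝ) < ε) => Asymptotics.IsLittleO.def h hε
  by_cases hfin : ∀ x, (pairs a b c x).Finite
  · -- the jumps at `c a ^ k`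
    have h1 := hdef (1 / (8 * log b)) (by positivity)
    obtain ⟨X, hX⟩ := eventually_atTop.1 h1
    set η := log a / 4 with hη
    have hη0 : 0 < η := by positivity
    have hw : 0 < 1 - exp (-η) := by
      have : exp (-η) < exp 0 := exp_lt_exp.2 (by linarith)
      rw [exp_zero] at this
      linarith
    set w := (1 - exp (-η)) / 2 with hwdef
    have hw0 : 0 < w := by positivity
    -- a large `y = c a ^ k`
    set Y := max (max X 1 * exp η) (exp (4 * log b * (|κ| * η + |log w| / log b + 1))) with hY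
    obtain ⟨k, hk⟩ := pow_unbounded_of_one_lt (Y / c) ha
    set y := c * a ^ k with hy
    have hYy : Y < y := by
      rw [div_lt_iff₀ hc] at hk
      rw [hy]
      linarith
    have hy0 : 0 < y := by positivity
    set x := y * exp (-η) with hx
    have hx0 : 0 < x := by positivity
    have hlx : log x = log y - η := by
      rw [hx, log_mul hy0.ne' (exp_pos _).ne', log_exp]
      ring
    have hx1 : max X 1 ≤ x := by
      have h2 : max X 1 * exp η ≤ y := (le_max_left _ _).trans hYy.le
      rw [hx, exp_neg, ← div_eq_mul_inv, le_div_iff₀ (exp_pos _)]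
      exact h2
    have hxX : X ≤ x := (le_max_left _ _).trans hx1
    have hx1' : 1 ≤ x := (le_max_right _ _).trans hx1
    have hxy : x ≤ y := by
      rw [hx]
      have : exp (-η) ≤ 1 := by
        rw [exp_le_one_iff]
        linarith
      nlinarith
    have hly : 4 * log b * (|κ| * η + |log w| / log b + 1) ≤ log y := by
      rw [le_log_iff_exp_le hy0]
      exact (le_max_right _ _).trans hYy.le
    have hlx0 : 0 ≤ log x := log_nonneg hx1'
    have hly0 : 0 ≤ log y := log_nonneg (by linarith)
    have f1 := hX x hxX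
    have f2 := hX y (by linarith)
    rw [Real.norm_eq_abs, Real.norm_eq_abs, abs_of_nonneg hlx0] at f1
    rw [Real.norm_eq_abs, Real.norm_eq_abs, abs_of_nonneg hly0] at f2
    -- the new pairs
    set z := y * w with hz
    have hz0 : 0 < z := by positivity
    set n := ⌊log z / log b⌋₊ with hn
    have hsub : pairs a b c x ∪ ((fun m : ℕ => (k, m)) '' {m : ℕ | m ≤ n ∧ b ^ m ≤ z}) ⊆
        pairs a b c y := by
      rintro p (hp | ⟨m, ⟨-, hm⟩, rfl⟩)
      · exact le_trans hp hxy
      · show |c * a ^ k - b ^ m| ≤ y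
        rw [← hy]
        have hbm : 0 < b ^ m := by positivity
        have hzy : z ≤ y := by
          rw [hz]
          have : w ≤ 1 := by
            have := exp_pos (-η)
            rw [hwdef]
            linarith
          nlinarith
        rw [abs_of_nonneg (by linarith)]
        linarith
    have hdisj : Disjoint (pairs a b c x) ((fun m : ℕ => (k, m)) '' {m : ℕ | m ≤ n ∧ b ^ m ≤ z}) := by
      rw [Set.disjoint_left]
      rintro p hp ⟨m, ⟨-, hm⟩, rfl⟩
      have hp' : |c * a ^ k - b ^ m| ≤ x := hp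
      rw [← hy] at hp'
      have h2 := (abs_le.1 hp').2
      have h3 : y - z ≤ x := by linarith
      have h4 : y - x = 2 * z := by
        rw [hx, hz, hwdef]
        ring
      linarith
    have hfin2 : ((fun m : ℕ => (k, m)) '' {m : ℕ | m ≤ n ∧ b ^ m ≤ z}).Finite :=
      ((Set.finite_Iic n).subset fun m hm => hm.1).image _
    have h2 := Set.ncard_le_ncard hsub (hfin y)
    rw [Set.ncard_union_eq hdisj (hfin x) hfin2,
      Set.ncard_image_of_injective _ fun u v huv => (Prod.ext_iff.1 huv).2] at h2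
    have h3 : log z / log b ≤ (({m : ℕ | m ≤ n ∧ b ^ m ≤ z}.ncard : ℕ) : ℝ) := by
      rcases lt_or_ge (log z / log b) 0 with h4 | h4
      · exact h4.le.trans (Nat.cast_nonneg _)
      · have h5 : {m : ℕ | m ≤ n ∧ b ^ m ≤ z} = ((Finset.range (n + 1) : Finset ℕ) : Set ℕ) := by
          ext m
          rw [Finset.coe_range, mem_Iio, Nat.lt_succ_iff, mem_ofPred_eq]
          refine ⟨fun h6 => h6.1, fun h6 => ⟨h6, ?_⟩⟩
          rw [Pool.Agent.H491R3.PE.pow_le_iff_log hb hz0, ← Nat.le_floor_iff h4]
          exact h6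
        rw [h5, Set.ncard_coe_finset, Finset.card_range]
        push_cast
        exact (Nat.lt_floor_add_one _).le
    have h4 : (((pairs a b c x).ncard : ℕ) : ℝ) + log z / log b ≤
        (((pairs a b c y).ncard : ℕ) : ℝ) := by
      have : ((((pairs a b c x).ncard + {m : ℕ | m ≤ n ∧ b ^ m ≤ z}.ncard : ℕ)) : ℝ) ≤
        (((pairs a b c y).ncard : ℕ) : ℝ) := by exact_mod_cast h2
      push_cast at this
      linarith
    have hlz : log z = log y + log w := log_mul hy0.ne' hw0.ne'
    have e1 : log y ^ 2 / (log a * log b) - log x ^ 2 / (log a * log b) =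
        (log y / 2 - η / 4) / log b := by
      rw [hlx, hη]
      field_simp
      ring
    have e2 : (log y / 2 - η / 4) / log b ≤ log y / 2 / log b :=
      div_le_div_of_nonneg_right (by linarith) hB.le
    have f1' := (abs_le.1 f1).1
    have f2' := (abs_le.1 f2).2
    have e3 : κ * log y - κ * log x ≤ |κ| * η := by
      rw [hlx]
      have : κ * log y - κ * (log y - η) = κ * η := by ring
      rw [this]
      exact mul_le_mul_of_nonneg_right (le_abs_self κ) hη0.le
    have e4 : 1 / (8 * log b) * log x ≤ 1 / (8 * log b) * log y :=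
      mul_le_mul_of_nonneg_left (by linarith) (by positivity)
    have e5 : log z / log b = log y / log b + log w / log b := by
      rw [hlz]
      ring
    have e6 : -(|log w| / log b) ≤ log w / log b := by
      rw [← neg_div]
      exact div_le_div_of_nonneg_right (neg_abs_le _) hB.le
    have e7 : log y / 2 / log b = log y / log b / 2 := by ring
    have e8 : 1 / (8 * log b) * log y = log y / log b / 8 := by ring
    have e9 : 4 * (|κ| * η + |log w| / log b + 1) ≤ log y / log b := by
      rw [le_div_iff₀ hB]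
      linarith
    have e10 : 0 ≤ |κ| * η := by positivity
    have e11 : 0 ≤ |log w| / log b := by positivity
    linarith
  · -- some set of pairs is infinite
    push Not at hfin
    obtain ⟨x₁, hx₁⟩ := hfin
    have h1 := hdef 1 one_pos
    have h2 : ∀ᶠ x : ℝ in atTop, 1 + |κ| < log x * (1 / (log a * log b)) :=
      (tendsto_log_atTop.atTop_mul_const (by positivity)).eventually_gt_atTop _
    obtain ⟨x, h3, h4, h5, h6⟩ := (h1.and (h2.and ((eventually_ge_atTop x₁).and
      (eventually_gt_atTop (1 : ℝ))))).exists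
    have h7 : (pairs a b c x).ncard = 0 := by
      apply Set.Infinite.ncard
      refine (Set.Infinite.mono ?_ hx₁)
      intro p hp
      exact le_trans hp h5
    have hl : 0 < log x := log_pos h6
    rw [h7, Nat.cast_zero, zero_sub, Real.norm_eq_abs, Real.norm_eq_abs, abs_of_pos hl, one_mul] at h3
    have h8 := (abs_le.1 h3).1
    have h9 : -(|κ| * log x) ≤ κ * log x := by
      have := mul_le_mul_of_nonneg_right (neg_abs_le κ) hl.le
      linarith
    have h10 : log x ^ 2 / (log a * log b) = log x * (log x * (1 / (log a * log b))) := by ring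
    have h11 : log x * (1 + |κ|) < log x * (log x * (1 / (log a * log b))) :=
      mul_lt_mul_of_pos_left h4 hl
    nlinarith

end Pool.Agent.D0H73.NCO
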