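import Pool.Agent.D0H73.NCO.Main

/-!
# The error term divided by `log x`
-/

set_option autoImplicit false

namespace Pool.Agent.D0H73.NCO

open Real Set Filter

variable {a b c : ℝ}

/-- the logarithmic term -/
noncomputable def lt (x s : ℝ) : ℝ := min (log x) (log (1 / s)) / log x

theorem F_eq (ha : 1 < a) (hb : 1 < b) (hc : 0 < c) : ∃ C : ℝ, 0 ≤ C ∧ ∀ x : ℝ, exp 1 ≤ x →
    |F a b c x - log x * log (x / c) / (log a * log b) -
      (((1 - Int.fract (log (x / c) / log a)) + lt x (1 - Int.fract (log (x / c) / log a))) / log b +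
      ((1 - Int.fract (log x / log b)) + lt x (1 - Int.fract (log x / log b))) / log a) * log x|
      ≤ C := by
  have hA : 0 < log a := log_pos ha
  have hB : 0 < log b := log_pos hb
  refine ⟨1 + |log c| / log a, by positivity, fun x hx => ?_⟩
  have hx0 : 0 < x := lt_of_lt_of_le (exp_pos 1) hx
  have hlx : 1 ≤ log x := (le_log_iff_exp_le hx0).2 hx
  set U := log (x / c) / log a with hU
  set V := log x / log b with hV
  set s := 1 - Int.fract U with hs
  set t := 1 - Int.fract V with ht
  have hs0 : 0 < s := by linarith [Int.fract_lt_one U]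
  have hs1 : s ≤ 1 := by linarith [Int.fract_nonneg U]
  have ht0 : 0 < t := by linarith [Int.fract_lt_one V]
  have ht1 : t ≤ 1 := by linarith [Int.fract_nonneg V]
  have e1 : (⌊U⌋ : ℝ) + 1 = U + s := by rw [hs, Int.fract]; ring
  have e2 : (⌊V⌋ : ℝ) + 1 = V + t := by rw [ht, Int.fract]; ring
  have e3 : log (x / c) = log x - log c := log_div hx0.ne' hc.ne'
  have e4 : F a b c x - log x * log (x / c) / (log a * log b) -
      ((s + lt x s) / log b + (t + lt x t) / log a) * log x = s * t - t * (log c / log a) := by
    have hlx0 : log x ≠ 0 := by linarith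
    rw [F, ← hU, ← hV, ← hs, ← ht, e1, e2, lt, lt]
    have e5 : ((s + min (log x) (log (1 / s)) / log x) / log b +
        (t + min (log x) (log (1 / t)) / log x) / log a) * log x =
        s * log x / log b + min (log x) (log (1 / s)) / log b + (t * log x / log a +
          min (log x) (log (1 / t)) / log a) := by
      field_simp
    rw [e5, hU, hV, e3]
    field_simp
    ring
  rw [e4]
  have h1 : |s * t| ≤ 1 := by
    rw [abs_of_nonneg (by positivity)]
    nlinarith
  have h2 : |t * (log c / log a)| ≤ |log c| / log a := by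
    rw [abs_mul, abs_div, abs_of_pos hA, abs_of_pos ht0]
    have : 0 ≤ |log c| / log a := by positivity
    nlinarith
  exact (abs_sub _ _).trans (add_le_add h1 h2)

theorem lt_nonneg {x s : ℝ} (hx : 1 ≤ log x) (hs : 0 < s) (hs1 : s ≤ 1) : 0 ≤ lt x s := by
  apply div_nonneg (le_min (by linarith) (log_nonneg _)) (by linarith)
  rw [le_div_iff₀ hs]
  linarith

theorem lt_le {x s : ℝ} (hx : 1 ≤ log x) (hs : 0 < s) (hs1 : s ≤ 1) :
    s + lt x s ≤ 1 + (log (log x) + 1) / log x := by
  have hl0 : 0 < log x := by linarith
  have hll : 0 ≤ log (log x) := log_nonneg hx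
  rcases le_or_gt (1 / log x) s with h | h
  · have h1 : log (1 / s) ≤ log (log x) := by
      apply log_le_log (by positivity)
      rw [div_le_iff₀ hs]
      rw [div_le_iff₀ hl0] at h
      linarith
    have h2 : lt x s ≤ log (log x) / log x :=
      div_le_div_of_nonneg_right ((min_le_right _ _).trans h1) hl0.le
    have h3 : log (log x) / log x ≤ (log (log x) + 1) / log x :=
      div_le_div_of_nonneg_right (by linarith) hl0.le
    linarith
  · have h2 : lt x s ≤ 1 := by
      rw [lt, div_le_one hl0]
      exact min_le_left _ _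
    have h3 : 1 / log x ≤ (log (log x) + 1) / log x :=
      div_le_div_of_nonneg_right (by linarith) hl0.le
    linarith

/-- two-sided bounds for the explicit function -/
theorem F_bounds (ha : 1 < a) (hb : 1 < b) (hc : 0 < c) : ∃ C : ℝ, 0 ≤ C ∧
    ∀ x : ℝ, exp (exp 1) ≤ x →
    -(C * log (log x)) ≤ F a b c x - log x * log (x / c) / (log a * log b) ∧
    F a b c x - log x * log (x / c) / (log a * log b) ≤
      (1 / log a + 1 / log b) * log x + C * log (log x) := by
  have hA : 0 < log a := log_pos ha
  have hB : 0 < log b := log_pos hb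
  obtain ⟨C, hC, h⟩ := F_eq ha hb hc
  refine ⟨C + 2 * (1 / log a + 1 / log b), by positivity, fun x hx => ?_⟩
  have hx0 : 0 < x := lt_of_lt_of_le (exp_pos _) hx
  have he : exp 1 ≤ log x := (le_log_iff_exp_le hx0).2 hx
  have h1e : (1 : ℝ) ≤ exp 1 := one_le_exp (by norm_num)
  have hlx : 1 ≤ log x := by linarith
  have hll : 1 ≤ log (log x) := (le_log_iff_exp_le (by linarith)).2 he
  have hx1 : exp 1 ≤ x := (exp_le_exp.2 h1e).trans hx
  have h1 := abs_le.1 (h x hx1)
  set U := log (x / c) / log a with hU
  set V := log x / log b with hV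
  set s := 1 - Int.fract U with hs
  set t := 1 - Int.fract V with ht
  have hs0 : 0 < s := by linarith [Int.fract_lt_one U]
  have hs1 : s ≤ 1 := by linarith [Int.fract_nonneg U]
  have ht0 : 0 < t := by linarith [Int.fract_lt_one V]
  have ht1 : t ≤ 1 := by linarith [Int.fract_nonneg V]
  have hl0 : 0 < log x := by linarith
  have p1 : 0 ≤ s + lt x s := add_nonneg hs0.le (lt_nonneg hlx hs0 hs1)
  have p2 : 0 ≤ t + lt x t := add_nonneg ht0.le (lt_nonneg hlx ht0 ht1)
  have q1 : (s + lt x s) * log x ≤ log x + 2 * log (log x) := by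
    have h2 := mul_le_mul_of_nonneg_right (lt_le hlx hs0 hs1) hl0.le
    have e : (1 + (log (log x) + 1) / log x) * log x = log x + (log (log x) + 1) := by
      field_simp
    rw [e] at h2
    linarith
  have q2 : (t + lt x t) * log x ≤ log x + 2 * log (log x) := by
    have h2 := mul_le_mul_of_nonneg_right (lt_le hlx ht0 ht1) hl0.le
    have e : (1 + (log (log x) + 1) / log x) * log x = log x + (log (log x) + 1) := by
      field_simp
    rw [e] at h2
    linarith
  have e5 : ((s + lt x s) / log b + (t + lt x t) / log a) * log x =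
      (s + lt x s) * log x / log b + (t + lt x t) * log x / log a := by ring
  rw [e5] at h1
  have r1 : 0 ≤ (s + lt x s) * log x / log b := by positivity
  have r2 : 0 ≤ (t + lt x t) * log x / log a := by positivity
  have r3 : (s + lt x s) * log x / log b ≤ (log x + 2 * log (log x)) / log b :=
    div_le_div_of_nonneg_right q1 hB.le
  have r4 : (t + lt x t) * log x / log a ≤ (log x + 2 * log (log x)) / log a :=
    div_le_div_of_nonneg_right q2 hA.le
  have r5 : C ≤ C * log (log x) := le_mul_of_one_le_right hC hll
  have r6 : (log x + 2 * log (log x)) / log b + (log x + 2 * log (log x)) / log a =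
    (1 / log a + 1 / log b) * log x + 2 * (1 / log a + 1 / log b) * log (log x) := by ring
  have r7 : 0 ≤ 2 * (1 / log a + 1 / log b) * log (log x) := by positivity
  constructor
  · have : (C + 2 * (1 / log a + 1 / log b)) * log (log x) =
      C * log (log x) + 2 * (1 / log a + 1 / log b) * log (log x) := by ring
    linarith [h1.1]
  · have : (C + 2 * (1 / log a + 1 / log b)) * log (log x) =
      C * log (log x) + 2 * (1 / log a + 1 / log b) * log (log x) := by ring
    linarith [h1.2]

/-- the multiples of an irrational number, shifted, come close to every point modulo one -/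
theorem hit {θ : ℝ} (hθ : Irrational θ) (γ v ε : ℝ) (hv : 0 < v) (hv1 : v < 1) (hε : 0 < ε) (K : ℕ) :
    ∃ k : ℕ, K ≤ k ∧ |Int.fract (k * θ + γ) - v| < ε := by
  set δ := min ε (min (v / 2) ((1 - v) / 2)) with hδ
  have hδ0 : 0 < δ := lt_min hε (lt_min (by linarith) (by linarith))
  have d1 : δ ≤ ε := min_le_left _ _
  have d2 : δ ≤ v / 2 := (min_le_right _ _).trans (min_le_left _ _)
  have d3 : δ ≤ (1 - v) / 2 := (min_le_right _ _).trans (min_le_right _ _)
  obtain ⟨n, hn⟩ := exists_nat_gt (1 / δ)
  have hn0 : 0 < n := by
    have h1 : (0 : ℝ) < n := lt_trans (by positivity) hn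
    exact_mod_cast h1
  obtain ⟨q, hq0, -, hq⟩ := Real.exists_nat_abs_mul_sub_round_le θ hn0
  set η := (q : ℝ) * θ - round ((q : ℝ) * θ) with hη
  have hη0 : η ≠ 0 := by
    have h1 : Irrational ((q : ℝ) * θ) := hθ.natCast_mul hq0.ne'
    intro h2
    rw [sub_eq_zero] at h2
    exact h1.ne_int _ h2
  have hηδ : |η| < δ := by
    have h1 : (1 : ℝ) / (n + 1) < δ := by
      rw [div_lt_iff₀ (by positivity)]
      rw [div_lt_iff₀ hδ0] at hn
      nlinarith
    linarith
  -- the steps
  have step : ∀ (j : ℕ) (M : ℤ) (w : ℝ), K * θ + γ + j * η = M + w → 0 < w → w < 1 →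
      Int.fract (((K + j * q : ℕ) : ℝ) * θ + γ) = w := by
    intro j M w h1 h2 h3
    rw [Int.fract_eq_iff]
    refine ⟨h2.le, h3, M + j * round ((q : ℝ) * θ), ?_⟩
    push_cast
    have h4 : ((K : ℝ) + j * q) * θ + γ = K * θ + γ + j * η + j * round ((q : ℝ) * θ) := by
      rw [hη]
      ring
    rw [h4, h1]
    ring
  set z := K * θ + γ with hz
  rcases lt_or_gt_of_ne hη0 with h | h
  · -- downwards
    obtain ⟨M, hM⟩ := exists_int_lt (z - v)
    have hη' : 0 < -η := by linarith
    set j := ⌈(z - (M + v)) / (-η)⌉₊ with hj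
    have h1 := Nat.le_ceil ((z - (M + v)) / (-η))
    have h2 := Nat.ceil_lt_add_one (div_nonneg (by linarith : 0 ≤ z - (M + v)) hη'.le)
    rw [← hj] at h1 h2
    rw [div_le_iff₀ hη'] at h1
    have h3 : ((j : ℝ) - 1) * (-η) < z - (M + v) := by
      rw [← lt_div_iff₀ hη']
      linarith
    rw [abs_of_neg h] at hηδ
    refine ⟨K + j * q, by omega, ?_⟩
    rw [step j M (z + j * η - M) (by ring) (by linarith) (by linarith), abs_lt]
    constructor <;> linarith
  · obtain ⟨M, hM⟩ := exists_int_gt (z - v)
    set j := ⌈(M + v - z) / η⌉₊ with hj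
    have h1 := Nat.le_ceil ((M + v - z) / η)
    have h2 := Nat.ceil_lt_add_one (div_nonneg (by linarith : 0 ≤ M + v - z) h.le)
    rw [← hj] at h1 h2
    rw [div_le_iff₀ h] at h1
    have h3 : ((j : ℝ) - 1) * η < M + v - z := by
      rw [← lt_div_iff₀ h]
      linarith
    rw [abs_of_pos h] at hηδ
    refine ⟨K + j * q, by omega, ?_⟩
    rw [step j M (z + j * η - M) (by ring) (by linarith) (by linarith), abs_lt]
    constructor <;> linarith

/-- **the cluster set of the error term divided by `log x`** -/
theorem cluster (ha : 1 < a) (hb : 1 < b) (hc : 0 < c) (hθ : Irrational (log a / log b))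
    {N : ℝ → ℝ} {C : ℝ} (hN : ∀ x : ℝ, C ≤ x → |N x - F a b c x| ≤ C * log (log x)) (r : ℝ) :
    MapClusterPt r atTop (fun x : ℝ => (N x - log x * log (x / c) / (log a * log b)) / log x) ↔
      0 ≤ r ∧ r ≤ 1 / log a + 1 / log b := by
  have hA : 0 < log a := log_pos ha
  have hB : 0 < log b := log_pos hb
  obtain ⟨C1, hC1, h1⟩ := F_bounds ha hb hc
  obtain ⟨C2, hC2, h2⟩ := F_eq ha hb hc
  -- `log log x / log x` tends to zero
  have hlim : Tendsto (fun x : ℝ => log (log x) / log x) atTop (nhds 0) := by
    have h3 : Tendsto (fun y : ℝ => log y / y) atTop (nhds 0) := by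
      have := Real.isLittleO_log_id_atTop.tendsto_div_nhds_zero
      simpa using this
    exact h3.comp tendsto_log_atTop
  have hlim' : ∀ D ε : ℝ, 0 < ε → ∀ᶠ x : ℝ in atTop, D * (log (log x) / log x) < ε := by
    intro D ε hε
    have h3 := (hlim.const_mul D)
    rw [mul_zero] at h3
    exact h3.eventually (gt_mem_nhds hε)
  have hlog : ∀ᶠ x : ℝ in atTop, exp 1 ≤ log x := tendsto_log_atTop.eventually_ge_atTop _
  have hCe : ∀ᶠ x : ℝ in atTop, C ≤ x := eventually_ge_atTop _
  have hee : ∀ᶠ x : ℝ in atTop, exp (exp 1) ≤ x := eventually_ge_atTop _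
  have h1e : (1 : ℝ) ≤ exp 1 := one_le_exp (by norm_num)
  constructor
  · intro hr
    rw [mapClusterPt_iff_frequently] at hr
    constructor
    · by_contra hneg
      rw [not_le] at hneg
      have h3 := hr (Set.Iio (r / 2)) (Iio_mem_nhds (by linarith))
      apply h3
      filter_upwards [hlim' (C + C1) (-(r / 2)) (by linarith), hlog, hCe, hee] with x g1 g2 g3 g4
      rw [mem_Iio, not_lt]
      have hl0 : 0 < log x := by linarith
      rw [le_div_iff₀ hl0]
      have g5 := (abs_le.1 (hN x g3)).1
      have g6 := (h1 x g4).1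
      rw [mul_div_assoc', div_lt_iff₀ hl0] at g1
      linarith
    · by_contra hneg
      rw [not_le] at hneg
      set R := 1 / log a + 1 / log b with hR
      have h3 := hr (Set.Ioi ((R + r) / 2)) (Ioi_mem_nhds (by linarith))
      apply h3
      filter_upwards [hlim' (C + C1) ((r - R) / 2) (by linarith), hlog, hCe, hee] with x g1 g2 g3 g4
      rw [mem_Ioi, not_lt]
      have hl0 : 0 < log x := by linarith
      rw [div_le_iff₀ hl0]
      have g5 := (abs_le.1 (hN x g3)).2
      have g6 := (h1 x g4).2
      rw [mul_div_assoc', div_lt_iff₀ hl0] at g1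
      linarith
  · rintro ⟨hr0, hr1⟩
    set R := 1 / log a + 1 / log b with hR
    have hR0 : 0 < R := by positivity
    rw [mapClusterPt_iff_frequently]
    intro S hS
    obtain ⟨ε, hε, hεS⟩ := Metric.mem_nhds_iff.1 hS
    rw [frequently_atTop]
    intro X
    -- the target
    set μ := r / R with hμ
    have hμ0 : 0 ≤ μ := by positivity
    have hμ1 : μ ≤ 1 := by
      rw [hμ, div_le_one hR0]
      exact hr1
    have hμR : μ * R = r := div_mul_cancel₀ _ hR0.ne'
    set δ := min (1 / 4) (ε / (8 * R)) with hδ
    have hδ0 : 0 < δ := lt_min (by norm_num) (by positivity)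
    have hδ1 : δ ≤ 1 / 4 := min_le_left _ _
    have hδ2 : δ * R ≤ ε / 8 := by
      have : δ ≤ ε / (8 * R) := min_le_right _ _
      calc δ * R ≤ ε / (8 * R) * R := mul_le_mul_of_nonneg_right this hR0.le
        _ = ε / 8 := by field_simp
    set lam := max δ (min μ (1 - δ)) with hlam
    have hl1 : δ ≤ lam := le_max_left _ _
    have hl2 : lam ≤ 1 - δ := max_le (by linarith) (min_le_right _ _)
    have hl3 : |lam - μ| ≤ δ := by
      rw [abs_le]
      constructor
      · have h3 : μ - δ ≤ min μ (1 - δ) := le_min (by linarith) (by linarith)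
        have h4 : min μ (1 - δ) ≤ lam := le_max_right _ _
        linarith
      · have h3 : lam ≤ μ + δ := max_le (by linarith) ((min_le_left _ _).trans (by linarith))
        linarith
    -- the points `x`
    have hev : ∀ᶠ x : ℝ in atTop, (C + C2 + 2 * (1 / log a + 1 / log b) * |log (1 / (δ / 2))|) *
        (log (log x) / log x) < ε / 2 ∧ exp 1 ≤ log x ∧ C ≤ x ∧ exp (exp 1) ≤ x ∧ X ≤ x := by
      filter_upwards [hlim' (C + C2 + 2 * (1 / log a + 1 / log b) * |log (1 / (δ / 2))|) (ε / 2)
        (by linarith), hlog, hCe, hee, eventually_ge_atTop X] with x g1 g2 g3 g4 g5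
      exact ⟨g1, g2, g3, g4, g5⟩
    obtain ⟨X', hX'⟩ := eventually_atTop.1 hev
    obtain ⟨K, hK⟩ := exists_nat_ge ((log (max X' 1) - log c) / log a)
    obtain ⟨k, hk, hk'⟩ := hit hθ ((log c + log a * (1 - lam)) / log b) (1 - lam) (δ / 2)
      (by linarith) (by linarith) (by linarith) K
    set x := exp (log c + log a * (k + (1 - lam))) with hx
    have hlx : log x = log c + log a * (k + (1 - lam)) := by rw [hx, log_exp]
    have hx0 : 0 < x := exp_pos _
    have hxX : X' ≤ x := by
      refine (le_max_left X' 1).trans ?_
      rw [hx, ← log_le_iff_le_exp (by positivity)]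
      rw [div_le_iff₀ hA] at hK
      have h3 : (K : ℝ) ≤ k := by exact_mod_cast hk
      nlinarith
    obtain ⟨g1, g2, g3, g4, g5⟩ := hX' x hxX
    refine ⟨x, g5, hεS ?_⟩
    have hU : log (x / c) / log a = k + (1 - lam) := by
      rw [log_div hx0.ne' hc.ne', hlx]
      field_simp
      ring
    have hfU : Int.fract (log (x / c) / log a) = 1 - lam := by
      rw [hU, Int.fract_natCast_add, Int.fract_eq_self]
      constructor <;> linarith
    have hV : log x / log b = k * (log a / log b) + (log c + log a * (1 - lam)) / log b := by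
      rw [hlx]
      ring
    have hfV : |Int.fract (log x / log b) - (1 - lam)| < δ / 2 := by
      rw [hV]
      exact hk'
    set t := 1 - Int.fract (log x / log b) with ht
    have ht1 : |t - lam| < δ / 2 := by
      have : t - lam = -(Int.fract (log x / log b) - (1 - lam)) := by rw [ht]; ring
      rw [this, abs_neg]
      exact hfV
    have hlx1 : 1 ≤ log x := by linarith
    have hl0 : 0 < log x := by linarith
    have hll : 1 ≤ log (log x) := (le_log_iff_exp_le hl0).2 g2
    have hx1 : exp 1 ≤ x := (exp_le_exp.2 h1e).trans g4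
    have h3 := h2 x hx1
    rw [hfU, ← ht] at h3
    have e1 : 1 - (1 - lam) = lam := by ring
    rw [e1] at h3
    have h4 := hN x g3
    -- the logarithmic terms
    have hlt : ∀ s : ℝ, δ / 2 ≤ s → s ≤ 1 → 0 ≤ lt x s ∧ lt x s * log x ≤ |log (1 / (δ / 2))| := by
      intro s hs hs1
      have hs0 : 0 < s := by linarith
      refine ⟨lt_nonneg hlx1 hs0 hs1, ?_⟩
      rw [lt, div_mul_cancel₀ _ hl0.ne']
      refine (min_le_right _ _).trans (le_trans ?_ (le_abs_self _))
      apply log_le_log (by positivity)
      exact div_le_div_of_nonneg_left (by norm_num) (by linarith) hs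
    rw [abs_lt] at ht1
    obtain ⟨i1, i2⟩ := hlt lam (by linarith) (by linarith)
    obtain ⟨i3, i4⟩ := hlt t (by linarith) (by
      have := Int.fract_nonneg (log x / log b)
      linarith)
    set W := |log (1 / (δ / 2))| with hW
    have hW0 : 0 ≤ W := abs_nonneg _
    rw [Metric.mem_ball, Real.dist_eq]
    set E := N x - log x * log (x / c) / (log a * log b) with hE
    -- the error term is close to `lam * R * log x`
    have h5 : |E - lam * R * log x| ≤ (C + C2 + 2 * R * W) * log (log x) + δ / 2 * R * log x := by
      have e2 : E - lam * R * log x = (N x - F a b c x) +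
          (F a b c x - log x * log (x / c) / (log a * log b) -
            ((lam + lt x lam) / log b + (t + lt x t) / log a) * log x) +
          (lt x lam * log x / log b + lt x t * log x / log a) + (t - lam) * log x / log a := by
        rw [hE, hR]
        ring
      rw [e2]
      have j1 : |lt x lam * log x / log b + lt x t * log x / log a| ≤ R * W := by
        rw [abs_of_nonneg (by positivity)]
        have j2 : lt x lam * log x / log b ≤ W / log b := div_le_div_of_nonneg_right i2 hB.le
        have j3 : lt x t * log x / log a ≤ W / log a := div_le_div_of_nonneg_right i4 hA.le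
        have j4 : R * W = W / log a + W / log b := by rw [hR]; ring
        linarith
      have j5 : |(t - lam) * log x / log a| ≤ δ / 2 * R * log x := by
        rw [abs_div, abs_mul, abs_of_pos hl0, abs_of_pos hA]
        have j6 : |t - lam| ≤ δ / 2 := by
          rw [abs_le]
          constructor <;> linarith [ht1.1, ht1.2]
        have j7 : |t - lam| * log x / log a ≤ δ / 2 * log x / log a :=
          div_le_div_of_nonneg_right (mul_le_mul_of_nonneg_right j6 hl0.le) hA.le
        have j8 : δ / 2 * R * log x = δ / 2 * log x / log a + δ / 2 * log x / log b := by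
          rw [hR]
          ring
        have j9 : 0 ≤ δ / 2 * log x / log b := by positivity
        linarith
      have j10 : C2 ≤ C2 * log (log x) := le_mul_of_one_le_right hC2 hll
      have j11 : R * W ≤ 2 * R * W * log (log x) := by
        have : 0 ≤ R * W := by positivity
        nlinarith
      have j12 := abs_add_le ((N x - F a b c x) +
          (F a b c x - log x * log (x / c) / (log a * log b) -
            ((lam + lt x lam) / log b + (t + lt x t) / log a) * log x) +
          (lt x lam * log x / log b + lt x t * log x / log a)) ((t - lam) * log x / log a)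
      have j13 := abs_add_le ((N x - F a b c x) +
          (F a b c x - log x * log (x / c) / (log a * log b) -
            ((lam + lt x lam) / log b + (t + lt x t) / log a) * log x))
          (lt x lam * log x / log b + lt x t * log x / log a)
      have j14 := abs_add_le (N x - F a b c x)
          (F a b c x - log x * log (x / c) / (log a * log b) -
            ((lam + lt x lam) / log b + (t + lt x t) / log a) * log x)
      have j15 : (C + C2 + 2 * R * W) * log (log x) = C * log (log x) + C2 * log (log x) +
        2 * R * W * log (log x) := by ring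
      linarith
    have h6 : |E - r * log x| < ε * log x := by
      have e3 : E - r * log x = (E - lam * R * log x) + (lam - μ) * R * log x := by
        rw [← hμR]
        ring
      have h7 : |(lam - μ) * R * log x| ≤ δ * R * log x := by
        rw [abs_mul, abs_mul, abs_of_pos hl0, abs_of_pos hR0]
        exact mul_le_mul_of_nonneg_right (mul_le_mul_of_nonneg_right hl3 hR0.le) hl0.le
      have h8 := abs_add_le (E - lam * R * log x) ((lam - μ) * R * log x)
      rw [← e3] at h8
      rw [mul_div_assoc', div_lt_iff₀ hl0] at g1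
      have h9 : δ * R * log x ≤ ε / 8 * log x := mul_le_mul_of_nonneg_right hδ2 hl0.le
      have h10 : δ / 2 * R * log x = δ * R * log x / 2 := by ring
      have h11 : 0 < ε * log x := by positivity
      linarith
    have e4 : E / log x - r = (E - r * log x) / log x := by
      field_simp
    rw [e4, abs_div, abs_of_pos hl0, div_lt_iff₀ hl0]
    exact h6

end Pool.Agent.D0H73.NCO
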