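import Pool.Agent.D0H73.NCO.Far

/-!
# The exact count
-/

set_option autoImplicit false

namespace Pool.Agent.D0H73.NCO

open Real Set
open Pool.Agent.H491R3.PE

variable {a b c x : ℝ}

/-- the pairs -/
def pairs (a b c x : ℝ) : Set (ℕ × ℕ) := {p | |c * a ^ p.1 - b ^ p.2| ≤ x}

/-- the explicit function -/
noncomputable def F (a b c x : ℝ) : ℝ :=
  (⌊log (x / c) / log a⌋ + 1) * (⌊log x / log b⌋ + 1) +
    min (log x) (log (1 / (1 - Int.fract (log (x / c) / log a)))) / log b +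
    min (log x) (log (1 / (1 - Int.fract (log x / log b)))) / log a

/-- from a count of a part of the fourth region to the count of the pairs -/
theorem assemble (ha : 1 < a) (hb : 1 < b) (hc : 0 < c) {S : ℝ → Set (ℕ × ℕ)} {C x₀ : ℝ}
    (hC : 0 ≤ C) (hS : ∀ x : ℝ, x₀ ≤ x → (S x).Finite ∧ (((S x).ncard : ℕ) : ℝ) ≤ C * log (log x))
    (hSR : ∀ x : ℝ, S x ⊆ R4 a b c x) :
    ∃ C' : ℝ, 0 < C' ∧ ∀ x : ℝ, C' ≤ x → (R1 a b c x ∪ (R2 a b c x ∪ (R3 a b c x ∪ S x))).Finite ∧
      |(((R1 a b c x ∪ (R2 a b c x ∪ (R3 a b c x ∪ S x))).ncard : ℕ) : ℝ) - F a b c x| ≤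
        C' * log (log x) := by
  obtain ⟨C2, hC2, h2⟩ := R2_count ha hb hc
  obtain ⟨C3, hC3, h3⟩ := R3_count ha hb hc
  refine ⟨max (C2 + C3 + C) (max (max 1 c) (max x₀ (exp (exp 1)))),
    lt_of_lt_of_le (exp_pos (exp 1)) (((le_max_right _ _).trans (le_max_right _ _)).trans
      (le_max_right _ _)), fun x hx => ?_⟩
  set C' := max (C2 + C3 + C) (max (max 1 c) (max x₀ (exp (exp 1)))) with hC'
  have g1 : 1 ≤ x := (((le_max_left _ _).trans (le_max_left _ _)).trans (le_max_right _ _)).trans hx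
  have g2 : c ≤ x := (((le_max_right _ _).trans (le_max_left _ _)).trans (le_max_right _ _)).trans hx
  have g3 : x₀ ≤ x := (((le_max_left _ _).trans (le_max_right _ _)).trans (le_max_right _ _)).trans hx
  have g4 : exp (exp 1) ≤ x :=
    (((le_max_right _ _).trans (le_max_right _ _)).trans (le_max_right _ _)).trans hx
  have hx0 : 0 < x := by linarith
  have hll : 1 ≤ log (log x) := by
    have h5 : exp 1 ≤ log x := (le_log_iff_exp_le hx0).2 g4
    exact (le_log_iff_exp_le (lt_of_lt_of_le (exp_pos 1) h5)).2 h5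
  obtain ⟨a1, b1⟩ := R1_count ha hb hc g1 g2
  obtain ⟨a2, b2⟩ := h2 x g1 g2
  obtain ⟨a3, b3⟩ := h3 x g1 g2
  obtain ⟨a4, b4⟩ := hS x g3
  have d3 : Disjoint (R3 a b c x) (S x) := by
    rw [Set.disjoint_left]
    intro p hp hq
    have := (hSR x hq).1
    linarith [hp.1]
  have d2 : Disjoint (R2 a b c x) (R3 a b c x ∪ S x) := by
    rw [Set.disjoint_left]
    rintro p hp (hq | hq)
    · linarith [hp.1, hq.1]
    · linarith [hp.2.1, (hSR x hq).2.1]
  have d1 : Disjoint (R1 a b c x) (R2 a b c x ∪ (R3 a b c x ∪ S x)) := by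
    rw [Set.disjoint_left]
    rintro p hp (hq | hq | hq)
    · linarith [hp.1, hq.1]
    · linarith [hp.2, hq.2.1]
    · linarith [hp.1, (hSR x hq).1]
  refine ⟨a1.union (a2.union (a3.union a4)), ?_⟩
  rw [Set.ncard_union_eq d1 a1 (a2.union (a3.union a4)), Set.ncard_union_eq d2 a2 (a3.union a4),
    Set.ncard_union_eq d3 a3 a4]
  push_cast
  rw [b1, F]
  rw [abs_le] at b2 b3
  have h4 : (0 : ℝ) ≤ (((S x).ncard : ℕ) : ℝ) := Nat.cast_nonneg _
  have h5 : C2 + C3 + C ≤ C' := le_max_left _ _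
  have h6 : (C2 + C3 + C) * log (log x) ≤ C' * log (log x) :=
    mul_le_mul_of_nonneg_right h5 (by linarith)
  have h7 : C2 ≤ C2 * log (log x) := le_mul_of_one_le_right hC2 hll
  have h8 : C3 ≤ C3 * log (log x) := le_mul_of_one_le_right hC3 hll
  have h9 : 0 ≤ C * log (log x) := by positivity
  have h10 : (C2 + C3 + C) * log (log x) = C2 * log (log x) + C3 * log (log x) +
    C * log (log x) := by ring
  rw [abs_le]
  constructor <;> linarith [b2.1, b2.2, b3.1, b3.2]

theorem pairs_eq (ha : 0 < a) (hb : 0 < b) (hc : 0 < c) :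
    pairs a b c x = R1 a b c x ∪ (R2 a b c x ∪ (R3 a b c x ∪ R4 a b c x)) := by
  ext p
  have h1 : 0 < c * a ^ p.1 := by positivity
  have h2 : 0 < b ^ p.2 := by positivity
  simp only [pairs, R1, R2, R3, R4, mem_union, mem_ofPred_eq]
  constructor
  · intro h
    have h' := abs_le.1 h
    rcases le_or_gt (c * a ^ p.1) x with h3 | h3 <;> rcases le_or_gt (b ^ p.2) x with h4 | h4
    · exact Or.inl ⟨h3, h4⟩
    · exact Or.inr (Or.inr (Or.inl ⟨h3, h4, by linarith⟩))
    · exact Or.inr (Or.inl ⟨h3, h4, by linarith⟩)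
    · exact Or.inr (Or.inr (Or.inr ⟨h3, h4, h⟩))
  · rintro (⟨h3, h4⟩ | ⟨h3, h4, h5⟩ | ⟨h3, h4, h5⟩ | ⟨h3, h4, h5⟩)
    · rw [abs_le]
      constructor <;> linarith
    · rw [abs_le]
      constructor <;> linarith
    · rw [abs_le]
      constructor <;> linarith
    · exact h5

/-- **the count for good dilations** -/
theorem good_count (ha : 1 < a) (hb : 1 < b) (hc : 0 < c) (hg : Good a b c) :
    ∃ C : ℝ, 0 < C ∧ ∀ x : ℝ, C ≤ x → (pairs a b c x).Finite ∧
      |(((pairs a b c x).ncard : ℕ) : ℝ) - F a b c x| ≤ C * log (log x) := by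
  obtain ⟨C, x₀, hC, h⟩ := R4_good ha hb hc hg
  obtain ⟨C', hC', h'⟩ := assemble ha hb hc hC h fun x => subset_rfl
  refine ⟨C', hC', fun x hx => ?_⟩
  rw [pairs_eq (by linarith) (by linarith) hc]
  exact h' x hx

open Pool.Agent.TH709.NC

/-- the pairs with `min (a ^ n, b ^ m) ≤ x` or off the lines -/
def pairsOff (a b x : ℝ) : Set (ℕ × ℕ) :=
  {p | |a ^ p.1 - b ^ p.2| ≤ x ∧ (a ^ p.1 ≤ x ∨ b ^ p.2 ≤ x ∨ ¬ On (LL a b) p)}

/-- the fourth region off the lines -/
def S4 (a b x : ℝ) : Set (ℕ × ℕ) := {p | p ∈ R4 a b 1 x ∧ ¬ On (LL a b) p}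

theorem pairsOff_eq (ha : 0 < a) (hb : 0 < b) :
    pairsOff a b x = R1 a b 1 x ∪ (R2 a b 1 x ∪ (R3 a b 1 x ∪ S4 a b x)) := by
  ext p
  have e := Set.ext_iff.1 (pairs_eq (c := 1) (x := x) ha hb one_pos) p
  simp only [pairs, R1, R2, R3, R4, S4, pairsOff, mem_union, mem_ofPred_eq, one_mul] at e ⊢
  constructor
  · rintro ⟨h1, h2⟩
    rcases e.1 h1 with h | h | h | h
    · exact Or.inl h
    · exact Or.inr (Or.inl h)
    · exact Or.inr (Or.inr (Or.inl h))
    · refine Or.inr (Or.inr (Or.inr ⟨h, ?_⟩))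
      rcases h2 with h2 | h2 | h2
      · linarith [h.1]
      · linarith [h.2.1]
      · exact h2
  · rintro (h | h | h | ⟨h, h2⟩)
    · exact ⟨e.2 (Or.inl h), Or.inl h.1⟩
    · exact ⟨e.2 (Or.inr (Or.inl h)), Or.inr (Or.inl h.2.1)⟩
    · exact ⟨e.2 (Or.inr (Or.inr (Or.inl h))), Or.inl h.1⟩
    · exact ⟨h.2.2, Or.inr (Or.inr h2)⟩

/-- the part of `S4` with `a ^ n > x (log x) ^ 2`: at most a bounded number -/
theorem S4_high (ha : 1 < a) (hb : 1 < b) : ∃ C x₀ : ℝ, 0 ≤ C ∧ ∀ x : ℝ, x₀ ≤ x →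
    {p | p ∈ S4 a b x ∧ x * (log x) ^ 2 < a ^ p.1}.Finite ∧
      (({p | p ∈ S4 a b x ∧ x * (log x) ^ 2 < a ^ p.1}.ncard : ℕ) : ℝ) ≤ C := by
  classical
  have hA : 0 < log a := log_pos ha
  have hB : 0 < log b := log_pos hb
  have hl2 : 0 < log 2 := log_pos (by norm_num)
  set D : ℝ := 1 / 2 + log 8 / log a with hD
  have hl8 : 0 < log 8 := log_pos (by norm_num)
  have hD0 : 0 ≤ D := by positivity
  set M : ℝ := 8 / (log a * log b) + 2 with hM
  have hM0 : 0 < M := by positivity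
  refine ⟨D + 1, max 2 (exp M), by positivity, fun x hx => ?_⟩
  have hx2 : 2 ≤ x := (le_max_left _ _).trans hx
  have hxe : exp M ≤ x := (le_max_right _ _).trans hx
  have hx0 : 0 < x := by linarith
  rw [← le_log_iff_exp_le hx0] at hxe
  set l := log x with hl
  have hl0 : 0 < l := by linarith
  have hl22 : 2 ≤ l := by
    have : 0 < 8 / (log a * log b) := by positivity
    linarith
  -- the properties of the elements
  have key : ∀ p : ℕ × ℕ, p ∈ S4 a b x → x * l ^ 2 < a ^ p.1 →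
      (p.1 : ℝ) ≤ 2 * l / log a ∧ |(p.1 : ℝ) * log a - p.2 * log b| < 2 / l ^ 2 ∧
      |(p.1 : ℝ) * log a - p.2 * log b| ≤ 2 * x / a ^ p.1 ∧ x < a ^ p.1 := by
    rintro p ⟨⟨h1, h2, h3⟩, h4⟩ h5
    rw [one_mul] at h1 h3
    have h6 : a ^ p.1 ≤ x ^ 2 := by
      by_contra h7
      exact h4 (on_of_large ha hb hx2 h3 (not_le.1 h7))
    have hl4 : 4 ≤ l ^ 2 := by nlinarith
    have h7 : 2 * x < 1 * a ^ p.1 := by
      rw [one_mul]
      have : x * 4 ≤ x * l ^ 2 := mul_le_mul_of_nonneg_left hl4 hx0.le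
      linarith
    obtain ⟨h8, h9⟩ := near (c := 1) ha hb one_pos hx0 h7 (by rwa [one_mul])
    rw [one_mul, log_one, zero_add] at h8
    refine ⟨?_, ?_, h8, h1⟩
    · rw [pow_le_iff_log ha (by positivity), log_pow] at h6
      exact_mod_cast h6
    · refine lt_of_le_of_lt h8 ?_
      rw [div_lt_div_iff₀ (by positivity) (by positivity)]
      linarith
  -- two elements are collinear
  have col : ∀ p : ℕ × ℕ, p ∈ S4 a b x → x * l ^ 2 < a ^ p.1 → ∀ q : ℕ × ℕ, q ∈ S4 a b x →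
      x * l ^ 2 < a ^ q.1 → p.1 * q.2 = q.1 * p.2 := by
    intro p hp hp' q hq hq'
    obtain ⟨h1, h2, -, -⟩ := key p hp hp'
    obtain ⟨h3, h4, -, -⟩ := key q hq hq'
    have e : ((p.1 : ℝ) * q.2 - q.1 * p.2) * log b =
        q.1 * (p.1 * log a - p.2 * log b) - p.1 * (q.1 * log a - q.2 * log b) := by ring
    have h5 : |((p.1 : ℝ) * q.2 - q.1 * p.2) * log b| < log b := by
      rw [e]
      have h6 : |(q.1 : ℝ) * (p.1 * log a - p.2 * log b)| ≤ 2 * l / log a * (2 / l ^ 2) := by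
        rw [abs_mul, abs_of_nonneg (Nat.cast_nonneg _)]
        exact mul_le_mul h3 h2.le (abs_nonneg _) (by positivity)
      have h7 : |(p.1 : ℝ) * (q.1 * log a - q.2 * log b)| ≤ 2 * l / log a * (2 / l ^ 2) := by
        rw [abs_mul, abs_of_nonneg (Nat.cast_nonneg _)]
        exact mul_le_mul h1 h4.le (abs_nonneg _) (by positivity)
      have h8 := abs_sub (q.1 * (p.1 * log a - p.2 * log b) : ℝ) (p.1 * (q.1 * log a - q.2 * log b))
      have h9 : 2 * l / log a * (2 / l ^ 2) = 4 / (log a * l) := by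
        field_simp
        ring
      have h10 : 4 / (log a * l) * 2 < log b := by
        rw [div_mul_eq_mul_div, div_lt_iff₀ (by positivity)]
        have h11 : 8 < l * (log a * log b) := by
          have h12 : 8 / (log a * log b) < l := by linarith
          rwa [div_lt_iff₀ (by positivity)] at h12
        linarith
      rw [h9] at h6 h7
      linarith
    rw [abs_mul, abs_of_pos hB] at h5
    have h6 : |(p.1 : ℝ) * q.2 - q.1 * p.2| < 1 := by
      by_contra h7
      rw [not_lt] at h7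
      nlinarith
    have h7 : |((p.1 * q.2 : ℕ) : ℤ) - ((q.1 * p.2 : ℕ) : ℤ)| < 1 := by exact_mod_cast h6
    rw [Int.abs_lt_one_iff] at h7
    omega
  set T := {p | p ∈ S4 a b x ∧ x * l ^ 2 < a ^ p.1} with hT
  rcases T.eq_empty_or_nonempty with hTe | ⟨p, hp, hp'⟩
  · rw [hTe, Set.ncard_empty, Nat.cast_zero]
    exact ⟨Set.finite_empty, by positivity⟩
  have hpn : p.1 ≠ 0 := by
    intro h0
    rw [h0, pow_zero] at hp'
    nlinarith [sq_nonneg l]
  set g := Nat.gcd p.1 p.2 with hg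
  have hg0 : 0 < g := Nat.pos_of_ne_zero (Nat.gcd_ne_zero_left hpn)
  set q := p.1 / g with hq
  set r := p.2 / g with hr
  have hcop : Nat.Coprime q r := Nat.coprime_div_gcd_div_gcd hg0
  have hn1 : g * q = p.1 := Nat.mul_div_cancel' (Nat.gcd_dvd_left _ _)
  have hm1 : g * r = p.2 := Nat.mul_div_cancel' (Nat.gcd_dvd_right _ _)
  have hq1 : 1 ≤ q := by
    rcases Nat.eq_zero_or_pos q with h | h
    · rw [h, mul_zero] at hn1
      exact absurd hn1.symm hpn
    · exact h
  have hqr : (q, r) ∉ LL a b := fun h => hp.2 ⟨(q, r), h, g, Prod.ext hn1.symm hm1.symm⟩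
  have hq0 : (0 : ℝ) < q := by exact_mod_cast hq1
  have hfar : √a ^ q ≤ |a ^ q - b ^ r| := by
    have h1 : ¬ (|a ^ q - b ^ r| ^ 2 < a ^ q) := fun h => hqr ⟨hq1, hcop, h⟩
    rw [not_lt] at h1
    have h2 : (√a ^ q) ^ 2 = a ^ q := by
      rw [← pow_mul, mul_comm, pow_mul, sq_sqrt (by linarith)]
    have h3 : (√a ^ q) ^ 2 ≤ |a ^ q - b ^ r| ^ 2 := by
      rw [h2]
      exact h1
    exact (pow_le_pow_iff_left₀ (by positivity) (abs_nonneg _) two_ne_zero).1 h3
  -- the multiples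
  have mult : ∀ z ∈ T, ∃ k : ℕ, z = (k * q, k * r) := by
    rintro z ⟨hz, hz'⟩
    have h1 := col z hz hz' p hp hp'
    rw [← hn1, ← hm1] at h1
    have h2 : z.1 * r = q * z.2 := by
      have h3 : g * (z.1 * r) = g * (q * z.2) := by
        calc g * (z.1 * r) = z.1 * (g * r) := by ring
          _ = g * q * z.2 := h1
          _ = g * (q * z.2) := by ring
      exact Nat.eq_of_mul_eq_mul_left hg0 h3
    have h3 : q ∣ z.1 := by
      apply hcop.dvd_of_dvd_mul_right (n := r)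
      rw [h2]
      exact dvd_mul_right _ _
    obtain ⟨k, hk⟩ := h3
    refine ⟨k, Prod.ext (by rw [hk, mul_comm]) ?_⟩
    rw [hk] at h2
    have h4 : q * (k * r) = q * z.2 := by
      rw [← h2]
      ring
    exact (Nat.eq_of_mul_eq_mul_left hq1 h4).symm
  set U := l / log a with hU
  have hU0 : 0 < U := by positivity
  have bound : ∀ k : ℕ, (k * q, k * r) ∈ T → U / q ≤ k ∧ (k : ℝ) ≤ U / q + D := by
    rintro k ⟨hk, hk'⟩
    obtain ⟨h1, h2, h3, h4⟩ := key _ hk hk'
    simp only at h1 h2 h3 h4 hk'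
    have hk0 : 1 ≤ k := by
      rcases Nat.eq_zero_or_pos k with h | h
      · rw [h, zero_mul, pow_zero] at h4
        linarith
      · exact h
    have hkR : (1 : ℝ) ≤ k := by exact_mod_cast hk0
    rw [lt_pow_iff_log ha hx0] at h4
    push_cast at h1 h2 h3 h4
    have e1 : (k : ℝ) * q * log a - k * r * log b = k * (q * log a - r * log b) := by ring
    rw [e1, abs_mul, abs_of_nonneg (by linarith : (0 : ℝ) ≤ k)] at h2 h3
    have hδ : |(q : ℝ) * log a - r * log b| ≤ 1 := by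
      have h5 : 2 / l ^ 2 ≤ 1 := by
        rw [div_le_one (by positivity)]
        nlinarith
      nlinarith [abs_nonneg ((q : ℝ) * log a - r * log b)]
    -- a lower bound for the linear form
    have h5 : √a ^ q ≤ a ^ q * (2 * |(q : ℝ) * log a - r * log b|) := by
      refine hfar.trans ?_
      have e2 : b ^ r = a ^ q * exp (-((q : ℝ) * log a - r * log b)) := by
        have e3 : a ^ q = exp (q * log a) := by rw [exp_nat_mul, exp_log (by linarith)]
        have e4 : b ^ r = exp (r * log b) := by rw [exp_nat_mul, exp_log (by linarith)]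
        rw [e3, e4, ← exp_add]
        congr 1
        ring
      have e3 : a ^ q - b ^ r = -(a ^ q * (exp (-((q : ℝ) * log a - r * log b)) - 1)) := by
        rw [e2]
        ring
      rw [e3, abs_neg, abs_mul, abs_of_pos (by positivity : 0 < a ^ q)]
      apply mul_le_mul_of_nonneg_left _ (by positivity)
      have h6 := abs_exp_sub_one_le (x := -((q : ℝ) * log a - r * log b)) (by rwa [abs_neg])
      rwa [abs_neg] at h6
    have hs : (√a ^ q) * (√a ^ q) = a ^ q := by
      rw [← mul_pow, mul_self_sqrt (by linarith)]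
    have hsp : 0 < √a ^ q := by
      have : 0 < √a := sqrt_pos.2 (by linarith)
      positivity
    have h6 : 1 ≤ √a ^ q * (2 * |(q : ℝ) * log a - r * log b|) := by
      rw [← hs] at h5
      by_contra h7
      rw [not_le] at h7
      nlinarith
    have h7 : a ^ (k * q) ≤ √a ^ q * (4 * x) := by
      rw [le_div_iff₀ (by positivity)] at h3
      have hpk : 0 < a ^ (k * q) := by positivity
      have h8 : |(q : ℝ) * log a - r * log b| * a ^ (k * q) ≤ 2 * x := by
        refine le_trans ?_ h3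
        apply mul_le_mul_of_nonneg_right _ hpk.le
        exact le_mul_of_one_le_left (abs_nonneg _) hkR
      calc a ^ (k * q) = 1 * a ^ (k * q) := (one_mul _).symm
        _ ≤ √a ^ q * (2 * |(q : ℝ) * log a - r * log b|) * a ^ (k * q) :=
            mul_le_mul_of_nonneg_right h6 hpk.le
        _ = √a ^ q * 2 * (|(q : ℝ) * log a - r * log b| * a ^ (k * q)) := by ring
        _ ≤ √a ^ q * 2 * (2 * x) := mul_le_mul_of_nonneg_left h8 (by positivity)
        _ = _ := by ring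
    have h8 : (k : ℝ) * q * log a ≤ q * (log a / 2) + log 8 + l := by
      have h9 := log_le_log (by positivity) h7
      rw [log_pow, log_mul hsp.ne' (by positivity), log_mul (by norm_num) hx0.ne', log_pow,
        log_sqrt (by linarith)] at h9
      push_cast at h9
      have : log 4 ≤ log 8 := log_le_log (by norm_num) (by norm_num)
      linarith
    refine ⟨?_, ?_⟩
    · rw [div_le_iff₀ hq0]
      exact h4.le
    · have h9 : (k : ℝ) * q ≤ U + q * D := by
        have h10 : (k : ℝ) * q ≤ (q * (log a / 2) + log 8 + l) / log a := by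
          rw [le_div_iff₀ hA]
          exact h8
        have h11 : (q * (log a / 2) + log 8 + l) / log a = q * (1 / 2) + log 8 / log a + U := by
          rw [hU]
          field_simp
        have h12 : log 8 / log a ≤ q * (log 8 / log a) :=
          le_mul_of_one_le_left (by positivity) (by exact_mod_cast hq1)
        rw [h11] at h10
        rw [hD, mul_add]
        linarith
      have h10 : U / q + D = (U + q * D) / q := by field_simp
      rw [h10, le_div_iff₀ hq0]
      exact h9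
  have hsub : T ⊆ (((Finset.Icc ⌈U / q⌉₊ ⌊U / q + D⌋₊).image fun k => (k * q, k * r) :
      Finset (ℕ × ℕ)) : Set (ℕ × ℕ)) := by
    intro z hz
    obtain ⟨k, rfl⟩ := mult z hz
    obtain ⟨h1, h2⟩ := bound k hz
    rw [Finset.mem_coe, Finset.mem_image]
    refine ⟨k, ?_, rfl⟩
    rw [Finset.mem_Icc, Nat.ceil_le, Nat.le_floor_iff (by positivity)]
    exact ⟨h1, h2⟩
  refine ⟨(Finset.finite_toSet _).subset hsub, ?_⟩
  have h1 := Set.ncard_le_ncard hsub (Finset.finite_toSet _)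
  rw [Set.ncard_coe_finset] at h1
  have h2 : ((T.ncard : ℕ) : ℝ) ≤ ((Finset.Icc ⌈U / q⌉₊ ⌊U / q + D⌋₊).card : ℝ) := by
    exact_mod_cast h1.trans Finset.card_image_le
  exact h2.trans (cnt _ _ hD0)

theorem S4_count (ha : 1 < a) (hb : 1 < b) : ∃ C x₀ : ℝ, 0 ≤ C ∧ ∀ x : ℝ, x₀ ≤ x →
    (S4 a b x).Finite ∧ (((S4 a b x).ncard : ℕ) : ℝ) ≤ C * log (log x) := by
  obtain ⟨C1, x₁, hC1, h1⟩ := S4_high ha hb
  obtain ⟨C2, hC2, h2⟩ := R4_low (c := 1) ha hb one_pos
  refine ⟨C1 + 2 * C2, max x₁ (exp (exp 1)), by positivity, fun x hx => ?_⟩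
  obtain ⟨h3, h4⟩ := h1 x ((le_max_left _ _).trans hx)
  have g4 : exp (exp 1) ≤ x := (le_max_right _ _).trans hx
  have hx0 : 0 < x := lt_of_lt_of_le (exp_pos _) g4
  have h5 : exp 1 ≤ log x := (le_log_iff_exp_le hx0).2 g4
  have hll : 1 ≤ log (log x) := (le_log_iff_exp_le (lt_of_lt_of_le (exp_pos 1) h5)).2 h5
  have h6 : 2 ≤ log x := by
    have := add_one_le_exp (1 : ℝ)
    linarith
  have h7 : 1 ≤ x := by
    have := log_le_sub_one_of_pos hx0
    linarith
  obtain ⟨h8, h9⟩ := h2 x ((log x) ^ 2) h7 h7 (by nlinarith)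
  have hsub : S4 a b x ⊆ {p | p ∈ S4 a b x ∧ x * (log x) ^ 2 < a ^ p.1} ∪
      {p | p ∈ R4 a b 1 x ∧ 1 * a ^ p.1 ≤ x * (log x) ^ 2} := by
    intro p hp
    rcases le_or_gt (a ^ p.1) (x * (log x) ^ 2) with h | h
    · exact Or.inr ⟨hp.1, by rwa [one_mul]⟩
    · exact Or.inl ⟨hp, h⟩
  refine ⟨(h3.union h8).subset hsub, ?_⟩
  have h10 := (Set.ncard_le_ncard hsub (h3.union h8)).trans (Set.ncard_union_le _ _)
  have h11 : (((S4 a b x).ncard : ℕ) : ℝ) ≤ C1 + C2 * log ((log x) ^ 2) := by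
    refine le_trans (b := ((({p | p ∈ S4 a b x ∧ x * (log x) ^ 2 < a ^ p.1}.ncard : ℕ) : ℝ) +
      (({p | p ∈ R4 a b 1 x ∧ 1 * a ^ p.1 ≤ x * (log x) ^ 2}.ncard : ℕ) : ℝ))) ?_ (add_le_add h4 h9)
    exact_mod_cast h10
  rw [log_pow] at h11
  push_cast at h11
  nlinarith

/-- **the count off the lines** -/
theorem off_count (ha : 1 < a) (hb : 1 < b) :
    ∃ C : ℝ, 0 < C ∧ ∀ x : ℝ, C ≤ x → (pairsOff a b x).Finite ∧
      |(((pairsOff a b x).ncard : ℕ) : ℝ) - F a b 1 x| ≤ C * log (log x) := by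
  obtain ⟨C, x₀, hC, h⟩ := S4_count ha hb
  obtain ⟨C', hC', h'⟩ := assemble ha hb one_pos hC h fun x p hp => hp.1
  refine ⟨C', hC', fun x hx => ?_⟩
  rw [pairsOff_eq (by linarith) (by linarith)]
  exact h' x hx

end Pool.Agent.D0H73.NCO
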