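import Pool.Agent.TH709.NC.Lines

/-!
# Near-coincidences of two exponential sequences: the exact count up to `log log x`

The pairs `(n, m)` with `|c a ^ n - b ^ m| ≤ x` are split according to `c a ^ n ≤ x` and `b ^ m ≤ x`.
-/

set_option autoImplicit false

namespace Pool.Agent.D0H73.NCO

open Real Set
open Pool.Agent.H491R3.PE

variable {a b c x : ℝ}

/-- the number of the natural numbers in an interval -/
theorem cntI (s t : ℝ) (h : max 0 s ≤ t) :
    {m : ℕ | s ≤ m ∧ (m : ℝ) ≤ t}.Finite ∧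
    |(({m : ℕ | s ≤ m ∧ (m : ℝ) ≤ t}.ncard : ℕ) : ℝ) - (t - max 0 s)| ≤ 1 := by
  have ht0 : 0 ≤ t := (le_max_left _ _).trans h
  have e : {m : ℕ | s ≤ m ∧ (m : ℝ) ≤ t} = (Finset.Icc ⌈max 0 s⌉₊ ⌊t⌋₊ : Set ℕ) := by
    ext m
    simp only [mem_ofPred_eq, Finset.coe_Icc, mem_Icc, Nat.ceil_le, Nat.le_floor_iff ht0]
    constructor
    · rintro ⟨h1, h2⟩
      exact ⟨max_le (Nat.cast_nonneg _) h1, h2⟩
    · rintro ⟨h1, h2⟩
      exact ⟨(le_max_right _ _).trans h1, h2⟩
  rw [e]
  refine ⟨Finset.finite_toSet _, ?_⟩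
  rw [Set.ncard_coe_finset, Nat.card_Icc]
  have h1 : ⌈max 0 s⌉₊ ≤ ⌊t⌋₊ + 1 := by
    rw [Nat.ceil_le]
    push_cast
    exact h.trans (Nat.lt_floor_add_one t).le
  rw [Nat.cast_sub h1]
  push_cast
  have h2 := Nat.le_ceil (max 0 s)
  have h3 := Nat.ceil_lt_add_one (le_max_left 0 s)
  have h4 := Nat.floor_le ht0
  have h5 := Nat.lt_floor_add_one t
  rw [abs_le]
  constructor <;> linarith

/-- `c a ^ n ≤ y` -/
theorem ca_le (ha : 1 < a) (hc : 0 < c) {y : ℝ} (hy : 0 < y) (n : ℕ) :
    c * a ^ n ≤ y ↔ (n : ℝ) ≤ log (y / c) / log a := by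
  rw [← pow_le_iff_log ha (by positivity) n, le_div_iff₀ hc, mul_comm]

theorem lt_ca (ha : 1 < a) (hc : 0 < c) {y : ℝ} (hy : 0 < y) (n : ℕ) :
    y < c * a ^ n ↔ log (y / c) / log a < (n : ℝ) := by
  rw [← not_le, ca_le ha hc hy, not_le]

/-- both powers are at most `x` -/
def R1 (a b c x : ℝ) : Set (ℕ × ℕ) := {p | c * a ^ p.1 ≤ x ∧ b ^ p.2 ≤ x}

/-- only the second power is at most `x` -/
def R2 (a b c x : ℝ) : Set (ℕ × ℕ) := {p | x < c * a ^ p.1 ∧ b ^ p.2 ≤ x ∧ c * a ^ p.1 - b ^ p.2 ≤ x}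

/-- only the first power is at most `x` -/
def R3 (a b c x : ℝ) : Set (ℕ × ℕ) := {p | c * a ^ p.1 ≤ x ∧ x < b ^ p.2 ∧ b ^ p.2 - c * a ^ p.1 ≤ x}

/-- both powers are larger than `x` -/
def R4 (a b c x : ℝ) : Set (ℕ × ℕ) :=
  {p | x < c * a ^ p.1 ∧ x < b ^ p.2 ∧ |c * a ^ p.1 - b ^ p.2| ≤ x}

theorem R1_count (ha : 1 < a) (hb : 1 < b) (hc : 0 < c) (hx : 1 ≤ x) (hxc : c ≤ x) :
    (R1 a b c x).Finite ∧ (((R1 a b c x).ncard : ℕ) : ℝ) =
      (⌊log (x / c) / log a⌋ + 1) * (⌊log x / log b⌋ + 1) := by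
  have hA : 0 < log a := log_pos ha
  have hB : 0 < log b := log_pos hb
  have hx0 : 0 < x := by linarith
  have hU : 0 ≤ log (x / c) / log a := by
    apply div_nonneg _ hA.le
    apply log_nonneg
    rw [le_div_iff₀ hc]
    linarith
  have hV : 0 ≤ log x / log b := div_nonneg (log_nonneg hx) hB.le
  have e : R1 a b c x = ((Finset.range (⌊log (x / c) / log a⌋₊ + 1) ×ˢ
      Finset.range (⌊log x / log b⌋₊ + 1) : Finset (ℕ × ℕ)) : Set (ℕ × ℕ)) := by
    ext p
    rw [Finset.mem_coe, Finset.mem_product, Finset.mem_range, Finset.mem_range, Nat.lt_succ_iff,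
      Nat.lt_succ_iff, Nat.le_floor_iff hU, Nat.le_floor_iff hV, ← ca_le ha hc hx0,
      ← pow_le_iff_log hb hx0]
    rfl
  rw [e]
  refine ⟨Finset.finite_toSet _, ?_⟩
  rw [Set.ncard_coe_finset, Finset.card_product, Finset.card_range, Finset.card_range]
  push_cast
  rw [natCast_floor_eq_intCast_floor hU, natCast_floor_eq_intCast_floor hV]

/-- comparison of the two forms of the logarithmic term -/
theorem log_cmp {A : ℝ} (hA : 0 < A) : ∃ C : ℝ, 0 ≤ C ∧ ∀ s : ℝ, 0 < s → s ≤ 1 →
    0 < exp (A * s) - 1 ∧ |log (1 / (exp (A * s) - 1)) - log (1 / s)| ≤ C := by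
  have hA1 : 0 < exp A - 1 := by
    have := add_one_lt_exp hA.ne'
    linarith
  refine ⟨|log A| + |log (exp A - 1)|, by positivity, fun s hs hs1 => ?_⟩
  have h1 : A * s ≤ exp (A * s) - 1 := by
    have := add_one_le_exp (A * s)
    linarith
  have h2 : exp (A * s) - 1 ≤ s * (exp A - 1) := by
    have h3 := convexOn_exp.2 (Set.mem_univ A) (Set.mem_univ 0) hs.le
      (by linarith : 0 ≤ 1 - s) (by ring)
    simp only [smul_eq_mul, mul_zero, add_zero, exp_zero, mul_one] at h3
    rw [mul_comm s A] at h3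
    nlinarith
  have hAs : 0 < A * s := by positivity
  have h0 : 0 < exp (A * s) - 1 := lt_of_lt_of_le hAs h1
  refine ⟨h0, ?_⟩
  rw [one_div, one_div, log_inv, log_inv]
  have h4 : log (A * s) ≤ log (exp (A * s) - 1) := log_le_log hAs h1
  have h5 : log (exp (A * s) - 1) ≤ log (s * (exp A - 1)) := log_le_log h0 h2
  rw [log_mul hA.ne' hs.ne'] at h4
  rw [log_mul hs.ne' hA1.ne'] at h5
  have h6 := neg_abs_le (log A)
  have h7 := le_abs_self (log (exp A - 1))
  have h8 := abs_nonneg (log A)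
  have h9 := abs_nonneg (log (exp A - 1))
  rw [abs_le]
  constructor <;> linarith

theorem min_cmp {u v w C : ℝ} (h : |u - v| ≤ C) : |min w u - min w v| ≤ C := by
  have := abs_min_sub_min_le_max w u w v
  rw [sub_self, abs_zero] at this
  exact this.trans (max_le ((abs_nonneg _).trans h) h)

theorem min_cmp' {u v w C : ℝ} (h : |u - v| ≤ C) : |min u w - min v w| ≤ C := by
  have := abs_min_sub_min_le_max u w v w
  rw [sub_self, abs_zero] at this
  exact this.trans (max_le h ((abs_nonneg _).trans h))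

/-- the second region -/
theorem R2_count (ha : 1 < a) (hb : 1 < b) (hc : 0 < c) : ∃ C : ℝ, 0 ≤ C ∧ ∀ x : ℝ, 1 ≤ x → c ≤ x →
    (R2 a b c x).Finite ∧ |(((R2 a b c x).ncard : ℕ) : ℝ) -
      min (log x) (log (1 / (1 - Int.fract (log (x / c) / log a)))) / log b| ≤ C := by
  have hA : 0 < log a := log_pos ha
  have hB : 0 < log b := log_pos hb
  have ha1 : 0 < a - 1 := by linarith
  have ha0 : 0 < a := by linarith
  obtain ⟨C1, hC1, h1⟩ := log_cmp hA
  set C2 : ℝ := (log 2 / log a + 1) * (|log (a - 1)| / log b + 1) with hC2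
  have hC20 : 0 ≤ C2 := by positivity
  refine ⟨C1 / log b + 1 + C2, by positivity, fun x hx hxc => ?_⟩
  have hx0 : 0 < x := by linarith
  have hlx : 0 ≤ log x := log_nonneg hx
  set U := log (x / c) / log a with hU
  have hU0 : 0 ≤ U := by
    apply div_nonneg _ hA.le
    apply log_nonneg
    rw [le_div_iff₀ hc]
    linarith
  set V := log x / log b with hV
  have hV0 : 0 ≤ V := div_nonneg hlx hB.le
  set n₁ := ⌊U⌋₊ + 1 with hn₁
  set s := 1 - Int.fract U with hs
  have hs0 : 0 < s := by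
    have := Int.fract_lt_one U
    linarith
  have hs1 : s ≤ 1 := by
    have := Int.fract_nonneg U
    linarith
  have hn₁s : (n₁ : ℝ) = U + s := by
    rw [hn₁, hs, Int.fract, Nat.cast_add, natCast_floor_eq_intCast_floor hU0]
    push_cast
    ring
  obtain ⟨h2, h3⟩ := h1 s hs0 hs1
  have hea : exp (log a) = a := exp_log ha0
  -- the powers of `a` beyond `x`
  have hpow : ∀ n : ℕ, c * a ^ n = x * exp (log a * (n - U)) := by
    intro n
    have e1 : c * exp (log a * U) = x := by
      rw [hU, mul_div_cancel₀ _ hA.ne', exp_log (by positivity), mul_div_cancel₀ _ hc.ne']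
    have e2 : a ^ n = exp (log a * n) := by
      rw [mul_comm, exp_nat_mul, hea]
    rw [mul_sub, exp_sub, e2]
    have h4 := exp_pos (log a * U)
    rw [mul_div_assoc', eq_div_iff h4.ne', ← e1]
    ring
  set S0 : Set ℕ := {m : ℕ | x * (exp (log a * s) - 1) ≤ b ^ m ∧ b ^ m ≤ x} with hS0
  have hS0' : S0 = {m : ℕ | log (x * (exp (log a * s) - 1)) / log b ≤ m ∧ (m : ℝ) ≤ V} := by
    ext m
    simp only [hS0, mem_ofPred_eq]
    rw [pow_le_iff_log hb hx0, ← hV]
    have h5 : x * (exp (log a * s) - 1) ≤ b ^ m ↔ log (x * (exp (log a * s) - 1)) / log b ≤ m := by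
      rw [div_le_iff₀ hB, ← Real.log_pow, Real.log_le_log_iff (by positivity) (by positivity)]
    rw [h5]
  have hS0c : S0.Finite ∧ |((S0.ncard : ℕ) : ℝ) - min (log x) (log (1 / s)) / log b| ≤
      C1 / log b + 1 := by
    have e1 : log (x * (exp (log a * s) - 1)) = log x + log (exp (log a * s) - 1) :=
      log_mul hx0.ne' h2.ne'
    rw [one_div (exp _ - 1), log_inv] at h3
    rcases le_or_gt (log (exp (log a * s) - 1)) 0 with h6 | h6
    · have h7 : max 0 (log (x * (exp (log a * s) - 1)) / log b) ≤ V := by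
        apply max_le hV0
        rw [hV, e1]
        exact div_le_div_of_nonneg_right (by linarith) hB.le
      obtain ⟨h8, h9⟩ := cntI _ _ h7
      rw [← hS0'] at h8 h9
      refine ⟨h8, ?_⟩
      have e2 : V - max 0 (log (x * (exp (log a * s) - 1)) / log b) =
          min (log x) (-log (exp (log a * s) - 1)) / log b := by
        rw [hV, e1]
        rcases le_total 0 (log x + log (exp (log a * s) - 1)) with h10 | h10
        · rw [max_eq_right (div_nonneg h10 hB.le), min_eq_right (by linarith)]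
          ring
        · rw [max_eq_left (div_nonpos_of_nonpos_of_nonneg h10 hB.le), min_eq_left (by linarith)]
          ring
      rw [e2] at h9
      have h10 := min_cmp (w := log x) h3
      have h11 : |min (log x) (-log (exp (log a * s) - 1)) / log b -
          min (log x) (log (1 / s)) / log b| ≤ C1 / log b := by
        rw [← sub_div, abs_div, abs_of_pos hB]
        exact div_le_div_of_nonneg_right h10 hB.le
      have h12 := abs_sub_le ((S0.ncard : ℕ) : ℝ)
        (min (log x) (-log (exp (log a * s) - 1)) / log b) (min (log x) (log (1 / s)) / log b)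
      linarith
    · have h7 : S0 = ∅ := by
        rw [hS0, Set.eq_empty_iff_forall_notMem]
        rintro m ⟨h8, h9⟩
        have h10 : 1 < exp (log a * s) - 1 := by
          rw [← log_pos_iff h2.le]
          exact h6
        nlinarith
      rw [h7]
      refine ⟨Set.finite_empty, ?_⟩
      rw [Set.ncard_empty, Nat.cast_zero, zero_sub, abs_neg]
      have h8 : log (1 / s) ≤ C1 := by
        have := (abs_le.1 h3).1
        linarith
      have h9 : 0 ≤ log (1 / s) := by
        apply log_nonneg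
        rw [le_div_iff₀ hs0]
        linarith
      rw [abs_of_nonneg (div_nonneg (le_min hlx h9) hB.le)]
      have h10 : min (log x) (log (1 / s)) / log b ≤ C1 / log b :=
        div_le_div_of_nonneg_right ((min_le_right _ _).trans h8) hB.le
      linarith
  -- the two parts
  set P := (fun m : ℕ => (n₁, m)) '' S0 with hP
  set Q := {p : ℕ × ℕ | p ∈ R2 a b c x ∧ n₁ + 1 ≤ p.1} with hQ
  have hPQ : R2 a b c x = P ∪ Q := by
    ext p
    constructor
    · intro hp
      obtain ⟨h4, h5, h6⟩ := id hp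
      rw [lt_ca ha hc hx0, ← hU, ← Nat.floor_lt hU0] at h4
      rcases Nat.lt_or_ge n₁ p.1 with h7 | h7
      · exact Or.inr ⟨hp, h7⟩
      · left
        have h8 : p.1 = n₁ := by omega
        refine ⟨p.2, ⟨?_, h5⟩, Prod.ext h8.symm rfl⟩
        rw [h8, hpow n₁, hn₁s, add_sub_cancel_left] at h6
        linarith
    · rintro (⟨m, ⟨h4, h5⟩, rfl⟩ | h4)
      · refine ⟨?_, h5, ?_⟩
        · show x < c * a ^ n₁
          rw [lt_ca ha hc hx0, ← hU, hn₁s]
          linarith
        · show c * a ^ n₁ - b ^ m ≤ x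
          rw [hpow n₁, hn₁s, add_sub_cancel_left]
          linarith
      · exact h4.1
  have hQc : Q.Finite ∧ ((Q.ncard : ℕ) : ℝ) ≤ C2 := by
    have hl2 : 0 < log 2 := log_pos (by norm_num)
    apply set_count (u := n₁ + 1) (L := log 2 / log a) (L2 := |log (a - 1)| / log b)
      (f := fun _ => log x / log b - |log (a - 1)| / log b) (by positivity) (by positivity)
    rintro p ⟨⟨h4, h5, h6⟩, h7⟩
    have h7' : (n₁ : ℝ) + 1 ≤ p.1 := by exact_mod_cast h7
    refine ⟨h7', ?_, ?_, ?_⟩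
    · have h8 : c * a ^ p.1 ≤ 2 * x := by linarith
      rw [hpow] at h8
      have h9 : exp (log a * (p.1 - U)) ≤ 2 := by nlinarith
      rw [← le_log_iff_exp_le (by norm_num)] at h9
      have h10 : (p.1 : ℝ) - U ≤ log 2 / log a := by
        rw [le_div_iff₀ hA]
        linarith
      linarith
    · have h8 : x * (a - 1) ≤ b ^ p.2 := by
        have h9 : a ≤ exp (log a * (p.1 - U)) := by
          rw [← log_le_iff_le_exp ha0]
          nlinarith
        rw [hpow] at h6
        nlinarith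
      have h10 : log (x * (a - 1)) ≤ log (b ^ p.2) := log_le_log (by positivity) h8
      rw [log_mul hx0.ne' ha1.ne', log_pow] at h10
      rw [← sub_div, div_le_iff₀ hB]
      have := neg_abs_le (log (a - 1))
      linarith
    · rw [pow_le_iff_log hb hx0] at h5
      linarith
  have hPc : P.Finite ∧ P.ncard = S0.ncard :=
    ⟨hS0c.1.image _, Set.ncard_image_of_injective _ fun u v huv => (Prod.ext_iff.1 huv).2⟩
  rw [hPQ]
  refine ⟨hPc.1.union hQc.1, ?_⟩
  have hd : Disjoint P Q := by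
    rw [Set.disjoint_left]
    rintro p ⟨m, -, rfl⟩ ⟨-, h4⟩
    simp only at h4
    omega
  rw [Set.ncard_union_eq hd hPc.1 hQc.1, hPc.2, Nat.cast_add]
  have h4 := abs_le.1 hS0c.2
  have h5 : (0 : ℝ) ≤ ((Q.ncard : ℕ) : ℝ) := Nat.cast_nonneg _
  rw [abs_le]
  constructor <;> linarith [h4.1, h4.2, hQc.2]

end Pool.Agent.D0H73.NCO
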